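import Pool.Agent.P.MP_3bd355_an.Z.Pk.An
import Pool.Agent.P.MP_3bd355_an.Z.Pk.Ant1
import Pool.Agent.P.MP_3bd355_an.Z.Pk.Ant2
import Pool.Agent.P.MP_3bd355_an.Z.Pk.Ant3
import Pool.Agent.P.MP_3bd355_an.Z.Pk.Anti
import Pool.Agent.P.MP_3bd355_an.Z.Pk.Area
import Pool.Agent.P.MP_3bd355_an.Z.Pk.Arith
import Pool.Agent.P.MP_3bd355_an.Z.Pk.As
import Pool.Agent.P.MP_3bd355_an.Z.Pk.As2
import Pool.Agent.P.MP_3bd355_an.Z.Pk.Ba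
import Pool.Agent.P.MP_3bd355_an.Z.Pk.Conj
import Pool.Agent.P.MP_3bd355_an.Z.Pk.Cov
import Pool.Agent.P.MP_3bd355_an.Z.Pk.Covr
import Pool.Agent.P.MP_3bd355_an.Z.Pk.Deg
import Pool.Agent.P.MP_3bd355_an.Z.Pk.Dev1
import Pool.Agent.P.MP_3bd355_an.Z.Pk.Dev2
import Pool.Agent.P.MP_3bd355_an.Z.Pk.Di
import Pool.Agent.P.MP_3bd355_an.Z.Pk.Dini
import Pool.Agent.P.MP_3bd355_an.Z.Pk.Dom
import Pool.Agent.P.MP_3bd355_an.Z.Pk.Ends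
import Pool.Agent.P.MP_3bd355_an.Z.Pk.Eq1
import Pool.Agent.P.MP_3bd355_an.Z.Pk.Eq2
import Pool.Agent.P.MP_3bd355_an.Z.Pk.Eq3
import Pool.Agent.P.MP_3bd355_an.Z.Pk.Fb
import Pool.Agent.P.MP_3bd355_an.Z.Pk.Fc
import Pool.Agent.P.MP_3bd355_an.Z.Pk.Fn
import Pool.Agent.P.MP_3bd355_an.Z.Pk.Fn1
import Pool.Agent.P.MP_3bd355_an.Z.Pk.Fn2
import Pool.Agent.P.MP_3bd355_an.Z.Pk.Fx
import Pool.Agent.P.MP_3bd355_an.Z.Pk.Fy
import Pool.Agent.P.MP_3bd355_an.Z.Pk.Fy2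
import Pool.Agent.P.MP_3bd355_an.Z.Pk.Fz
import Pool.Agent.P.MP_3bd355_an.Z.Pk.Gexp
import Pool.Agent.P.MP_3bd355_an.Z.Pk.Inv
import Pool.Agent.P.MP_3bd355_an.Z.Pk.Iota
import Pool.Agent.P.MP_3bd355_an.Z.Pk.Jen
import Pool.Agent.P.MP_3bd355_an.Z.Pk.Ka
import Pool.Agent.P.MP_3bd355_an.Z.Pk.Keq
import Pool.Agent.P.MP_3bd355_an.Z.Pk.Keq1
import Pool.Agent.P.MP_3bd355_an.Z.Pk.Lb
import Pool.Agent.P.MP_3bd355_an.Z.Pk.Leaf1
import Pool.Agent.P.MP_3bd355_an.Z.Pk.Leaf2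
import Pool.Agent.P.MP_3bd355_an.Z.Pk.Li
import Pool.Agent.P.MP_3bd355_an.Z.Pk.Lip1
import Pool.Agent.P.MP_3bd355_an.Z.Pk.Lip2
import Pool.Agent.P.MP_3bd355_an.Z.Pk.Mn
import Pool.Agent.P.MP_3bd355_an.Z.Pk.Mob
import Pool.Agent.P.MP_3bd355_an.Z.Pk.Pain
import Pool.Agent.P.MP_3bd355_an.Z.Pk.Ph
import Pool.Agent.P.MP_3bd355_an.Z.Pk.Prim
import Pool.Agent.P.MP_3bd355_an.Z.Pk.Sqr
import Pool.Agent.P.MP_3bd355_an.Z.Pk.Strip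
import Pool.Agent.P.MP_3bd355_an.Z.Pk.Tf1
import Pool.Agent.P.MP_3bd355_an.Z.Pk.Tf2
import Pool.Agent.P.MP_3bd355_an.Z.Pk.Th
import Pool.Agent.P.MP_3bd355_an.Z.Pk.Ton
import Pool.Agent.P.MP_3bd355_an.Z.Pk.Uh
import Pool.Agent.P.MP_3bd355_an.Z.Pk.Unf
import Pool.Agent.P.MP_3bd355_an.Z.Pk.Unh
import Pool.Agent.P.MP_3bd355_an.Z.Pk.Vki
import Pool.Agent.P.MP_3bd355_an.Z.Pk.Weld
import Pool.Agent.P.MP_3bd355_an.Z.Pk.Main
import Pool.Agent.P.MP_3bd355_an.Z.Pk.Uniq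

/-! The case `A = 0`: composition of the packages. -/

namespace Pool.Agent.P.MP_3bd355_an

theorem zall_PRIM : Z_PRIM := z_prim

theorem zall_INV : Z_INV := z_inv

theorem zall_PAIN : Z_PAIN := z_pain

theorem zall_DINI : Z_DINI := z_dini

theorem zall_COV : Z_COV := z_cov

theorem zall_DEG : Z_DEG := z_deg

theorem zall_BA : Z_BA := z_ba

theorem zall_KA : Z_KA := z_ka

theorem zall_SQR : Z_SQR := z_sqr

theorem zall_KEQ1 : Z_KEQ1 := z_keq1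

theorem zall_KEQ : Z_KEQ := z_keq zall_KEQ1

theorem zall_COVR : Z_COVR := z_covr

theorem zall_STRIP : Z_STRIP := z_strip

theorem zall_CONJ : Z_CONJ := z_conj zall_PRIM zall_COVR zall_STRIP

theorem zall_AN : Z_AN := z_an zall_CONJ zall_DEG zall_INV

theorem zall_VKI : Z_VKI := z_vki

theorem zall_GEXP : Z_GEXP := z_gexp zall_VKI

theorem zall_UNF : Z_UNF := z_unf zall_GEXP

theorem zall_DI : Z_DI := z_di

theorem zall_MOB : Z_MOB := z_mob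

theorem zall_UNH : Z_UNH := z_unh zall_MOB zall_INV

theorem zall_TF1 : Z_TF1 := z_tf1 zall_VKI

theorem zall_TF2 : Z_TF2 := z_tf2

theorem zall_TH : Z_TH := z_th

theorem zall_PH : Z_PH := z_ph zall_PRIM

theorem zall_MN : Z_MN := z_mn

theorem zall_LB : Z_LB := z_lb zall_MN

theorem zall_LI : Z_LI := z_li zall_INV

theorem zall_AS2 : Z_AS2 := z_as2

theorem zall_AS : Z_AS := z_as zall_AS2

theorem zall_ANT1 : Z_ANT1 := z_ant1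

theorem zall_ANT2 : Z_ANT2 := z_ant2

theorem zall_ANT3 : Z_ANT3 := z_ant3

theorem zall_ANTI : Z_ANTI := z_anti zall_ANT1 zall_ANT2 zall_ANT3

theorem zall_ARITH : Z_ARITH := z_arith

theorem zall_UH : Z_UH := z_uh

theorem zall_FX : Z_FX := z_fx

theorem zall_LIP1 : Z_LIP1 := z_lip1

theorem zall_LIP2 : Z_LIP2 := z_lip2 zall_DINI

theorem zall_FZ : Z_FZ := z_fz zall_PAIN

theorem zall_FC : Z_FC := z_fc zall_PAIN

theorem zall_FN1 : Z_FN1 := z_fn1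

theorem zall_FN2 : Z_FN2 := z_fn2

theorem zall_FN : Z_FN := z_fn zall_FN1 zall_FN2

theorem zall_FY2 : Z_FY2 := z_fy2

theorem zall_FY : Z_FY := z_fy zall_FY2

theorem zall_DEV1 : Z_DEV1 := z_dev1

theorem zall_DEV2 : Z_DEV2 := z_dev2

theorem zall_FB : Z_FB := z_fb

theorem zall_IOTA : Z_IOTA := z_iota

theorem zall_WELD : Z_WELD := z_weld

theorem zall_DOM : Z_DOM := z_dom

theorem zall_ENDS : Z_ENDS := z_ends

theorem zall_LEAF1 : Z_LEAF1 := z_leaf1 zall_DINI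

theorem zall_LEAF2 : Z_LEAF2 := z_leaf2 zall_DINI

theorem zall_TON : Z_TON := z_ton

theorem zall_AREA : Z_AREA := z_area zall_COV zall_TON

theorem zall_JEN : Z_JEN := z_jen zall_TON zall_AREA

theorem zall_EQ1 : Z_EQ1 := z_eq1 zall_TON zall_AREA

theorem zall_EQ3 : Z_EQ3 := z_eq3 zall_DINI

theorem zall_EQ2 : Z_EQ2 := z_eq2 zall_EQ3

theorem zall_TF : Z_TF := fun B Λ u₀ h0 h1 h2 => zall_TF2 _ _ _ (zall_TF1 B Λ u₀ h0 h1 h2)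

theorem zall_DEV : Z_DEV := fun r x₀ z₁ f f' l l' h h' k k' =>
  let ⟨G, hG⟩ := zall_DEV1 r x₀ z₁ f f' l l' h h' k k'
  let ⟨ξ, hξ⟩ := zall_DEV2 r x₀ z₁ f f' G h h' hG
  ⟨ξ, G, hξ⟩

theorem zall_GF : Z_GF :=
  z_gf zall_BA zall_KA zall_AN zall_UNF zall_DI zall_UNH zall_TF zall_TH zall_PH zall_LB zall_LI
    zall_UH

theorem zall_FL : Z_FL :=
  z_fl zall_GF zall_AS zall_FX zall_LIP1 zall_LIP2 zall_FZ zall_FC zall_FN zall_FY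

theorem zall_CMP : Z_CMP :=
  z_cmp zall_SQR zall_DEV zall_FB zall_IOTA zall_WELD zall_DOM zall_ENDS zall_LEAF1 zall_LEAF2

theorem zall_UNIQ : Z_UNIQ :=
  z_uniq zall_BA zall_FL zall_CMP zall_JEN zall_ARITH zall_ANTI zall_EQ1 zall_EQ2 zall_KEQ

theorem zall_MAIN : Z_MAIN := z_main zall_UNIQ

end Pool.Agent.P.MP_3bd355_an
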