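import Pool.Agent.P.MP_3bd355_an.AllMain

/-! The case `A = 0`: internal definitions. -/

open Set Filter Metric Complex InnerProductSpace MeasureTheory
open scoped Topology ComplexConjugate Real

namespace Pool.Agent.P.MP_3bd355_an

/-- The arc of a configuration. -/
abbrev KK (κ : ℝ → ℂ) : Set ℂ := κ '' Icc 0 1

/-- The complement of the arc in the annulus. -/
abbrev XX (r : ℝ) (κ : ℝ → ℂ) : Set ℂ := ann r \ κ '' Icc 0 1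

/-- A critical configuration for `A = 0`, `z₀ = x₀ > 0`, with arc in the lower half plane. -/
structure ZC (r B x₀ : ℝ) (z₁ a b : ℂ) (c : ℝ) (κ : ℝ → ℂ) (v g : ℂ → ℝ) : Prop where
  ch : CH r 0 B x₀ z₁
  x0 : 0 < x₀
  crit : Crit r 0 B x₀ z₁ a b c κ v g
  low : ∀ t ∈ Icc (0 : ℝ) 1, (κ t).im ≤ 0

/-- The arc avoids the inner circle. -/
def NH (r : ℝ) (κ : ℝ → ℂ) : Prop := ∀ t ∈ Icc (0 : ℝ) 1, r < ‖κ t‖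

/-- Basic consequences. -/
structure BA (r B x₀ : ℝ) (z₁ a b : ℂ) (c : ℝ) (κ : ℝ → ℂ) (v : ℂ → ℝ) : Prop where
  cont : Cont r (KK κ)
  main_eq : main r (KK κ) = XX r κ
  nz : NZ r x₀ z₁ a b c
  sol : Sol r 0 B (KK κ) (indicator (XX r κ) v)
  ex : Ex r (KK κ) = sphere 0 r \ KK κ
  vpos : ∀ z ∈ XX r κ, 0 < v z ∧ v z < B
  dense : ∀ p ∈ cann r, p ∈ closure (XX r κ)

/-- The arc and the quadratic differential. -/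
structure KA (r x₀ : ℝ) (z₁ : ℂ) (κ : ℝ → ℂ) (Q : ℂ → ℂ) : Prop where
  r0 : 0 < r
  r1 : r < 1
  m0 : (x₀ : ℂ) ∈ ann r
  x0 : 0 < x₀
  m1 : z₁ ∈ ann r
  cont : ContinuousOn κ (Icc 0 1)
  inj : InjOn κ (Icc 0 1)
  start : κ 0 = z₁
  mem : ∀ t ∈ Ico (0 : ℝ) 1, r ≤ ‖κ t‖ ∧ ‖κ t‖ < 1
  stop : ‖κ 1‖ = 1
  low : ∀ t ∈ Icc (0 : ℝ) 1, (κ t).im ≤ 0
  avoid : (x₀ : ℂ) ∉ KK κ
  pre : IsPreconnected (XX r κ)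
  null : volume (KK κ ∩ ann r) = 0
  cov : ∃ S : Set ℂ, S.Finite ∧ ∀ p ∈ KK κ, ‖p‖ = r → p ∉ S →
    (∃ t ∈ Ioo (0 : ℝ) 1, κ t = p) ∧ ∀ᶠ q in 𝓝 p, (q ∈ KK κ ↔ ‖q‖ = r)
  qc : ∀ p ∈ cann r, p ≠ x₀ → p ≠ z₁ → ContinuousAt Q p
  fin0 : ∃ S : Set ℂ, S.Finite ∧ ∀ p ∈ cann r, p ∉ S → ContinuousAt Q p ∧ Q p ≠ 0
  chart : ∀ p ∈ cann r, p ≠ x₀ → ∃ (n : ℕ) (ψ : ℂ → ℂ), Chart Q p n ψ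
  lock : ∀ t ∈ Ioo (0 : ℝ) 1, r < ‖κ t‖ → ∃ ψ : ℂ → ℂ, Chart Q (κ t) 2 ψ ∧
    ∀ᶠ z in 𝓝 (κ t), (z ∈ KK κ ↔ (ψ z).re = 0)

/-- `f` has opposite limits on the two sides of `K` at `p`. -/
def Odd2 {E : Type} [TopologicalSpace E] [Neg E] (K : Set ℂ) (f : ℂ → E) (p : ℂ) (P : E → Prop) :
    Prop :=
  ∃ V ∈ 𝓝 p, ∀ O ∈ 𝓝 p, O ⊆ V → ∀ A₁ A₂ : Set ℂ, IsPreconnected A₁ → IsPreconnected A₂ →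
    O \ K = A₁ ∪ A₂ → ∃ γ : E, P γ ∧ Tendsto f (𝓝[A₁] p) (𝓝 γ) ∧ Tendsto f (𝓝[A₂] p) (𝓝 (-γ))

/-- A square root of `z - z₁` on the disc slit along the arc. -/
structure SQR (z₁ : ℂ) (κ : ℝ → ℂ) (l : ℂ → ℂ) : Prop where
  cont : ContinuousOn l (ball 0 1 \ KK κ)
  sq : ∀ z ∈ ball (0 : ℂ) 1 \ KK κ, l z ^ 2 = z - z₁
  flip : ∀ t ∈ Ioo (0 : ℝ) 1, Odd2 (KK κ) l (κ t) (· ≠ 0)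

/-! ### The model -/

/-- The vertical strip. -/
def Str (Λ : ℝ) : Set ℂ := {u | 0 < u.re ∧ u.re < Λ}

/-- The fundamental set. -/
def FS (Λ : ℝ) (fin : Prop) : Set ℂ :=
  {u | 0 < u.re ∧ u.re < Λ ∧ (fin → -π < u.im ∧ u.im ≤ π)}

/-- The open rectangle or half strip. -/
def PP (Λ : ℝ) (fin : Prop) : Set ℂ := {u | 0 < u.re ∧ u.re < Λ ∧ 0 < u.im ∧ (fin → u.im < π)}

/-- The closed rectangle or half strip. -/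
def PC (Λ : ℝ) (fin : Prop) : Set ℂ := {u | 0 ≤ u.re ∧ u.re ≤ Λ ∧ 0 ≤ u.im ∧ (fin → u.im ≤ π)}

/-- Uniformisation of the complement of the arc by a strip. -/
structure UN (r B x₀ : ℝ) (κ : ℝ → ℂ) (Q : ℂ → ℂ) (v : ℂ → ℝ) (fin : Prop) (Λ u₀ : ℝ)
    (Ψ T : ℂ → ℂ) : Prop where
  nh : fin ↔ NH r κ
  d : DifferentiableOn ℂ Ψ (Str Λ)
  dne : ∀ u ∈ Str Λ, deriv Ψ u ≠ 0
  maps : ∀ u ∈ Str Λ, Ψ u ∈ XX r κ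
  inj : InjOn Ψ (FS Λ fin)
  surj : ∀ z ∈ XX r κ, ∃ u ∈ FS Λ fin, Ψ u = z
  per : fin → ∀ u ∈ Str Λ, Ψ (u + 2 * π * I) = Ψ u
  base : Ψ u₀ = x₀
  val : ∀ u ∈ Str Λ, v (Ψ u) = B * u.re / Λ
  pull : ∀ u ∈ Str Λ, Ψ u ≠ x₀ → Q (Ψ u) * deriv Ψ u ^ 2 = T u
  expo : ∀ p : ℂ, ‖p‖ = r → p ∉ KK κ → ∃ C : ℝ, ∀ᶠ z in 𝓝[XX r κ] p,
    ∀ u ∈ FS Λ fin, Ψ u = z → |u.im| ≤ C

/-- The pulled back quadratic differential. -/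
structure MD (Λ u₀ c : ℝ) (fin : Prop) (T : ℂ → ℂ) : Prop where
  u0 : 0 < u₀
  u1 : u₀ < Λ
  symm : ∀ u, T (conj u) = conj (T u)
  ana : ∀ u ∈ PC Λ fin, u ≠ u₀ → AnalyticAt ℂ T u
  pole : ∃ C : ℝ, ∀ᶠ u : ℂ in 𝓝[≠] (u₀ : ℂ), ‖u - u₀‖ * ‖T u‖ ≤ C
  im : ∀ u ∈ PP Λ fin, 0 < (T u).im
  bl : ∀ x ∈ Ico 0 u₀, (T x).im = 0 ∧ 0 < (T x).re
  br : ∀ x ∈ Ioc u₀ Λ, (T x).im = 0 ∧ (T x).re < 0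
  lf : ∀ u ∈ PC Λ fin, u.re = 0 → (T u).im = 0 ∧ 0 < (T u).re
  rg : ∀ u ∈ PC Λ fin, u.re = Λ → (T u).im = 0 ∧ (T u).re < 0
  cm : fin → 0 < c ∧ c < Λ ∧ T (c + π * I) = 0 ∧ deriv T (c + π * I) ≠ 0
  tl : fin → ∀ x ∈ Ico 0 c, (T (x + π * I)).im = 0 ∧ 0 < (T (x + π * I)).re
  tr : fin → ∀ x ∈ Ioc c Λ, (T (x + π * I)).im = 0 ∧ (T (x + π * I)).re < 0
  sp : fin → ∫ x in (0 : ℝ)..Λ, (T (x + π * I)).re = 0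
  dec : ¬ fin → ∃ C : ℝ, ∀ u ∈ PC Λ fin, 1 ≤ u.im → ‖T u‖ ≤ C * Real.exp (-u.im)

/-- The model differential of the annulus. -/
noncomputable def Tf (B Λ u₀ : ℝ) (u : ℂ) : ℂ :=
  -(B / Λ : ℝ) * ((u₀ / Λ : ℝ) +
    (vk (Real.exp (-Λ)) (exp (u₀ - u)) - vk (Real.exp (-Λ)) (exp (-u₀ - u))) / 2)

/-- The model differential of the strip. -/
noncomputable def Th (B u₀ : ℝ) (u : ℂ) : ℂ := (B / π * Real.sin u₀ : ℝ) / (cos u - cos u₀)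

/-- The formula when the arc avoids the inner circle. -/
def FormN (r B x₀ : ℝ) (κ : ℝ → ℂ) (Q : ℂ → ℂ) (v : ℂ → ℝ) : Prop :=
  ∃ (ρ m : ℝ) (φ : ℂ → ℂ), 0 < ρ ∧ ρ < 1 ∧ 0 < m ∧ m < 1 ∧ DifferentiableOn ℂ φ (XX r κ) ∧
    BijOn φ (XX r κ) (ann ρ) ∧ φ x₀ = (ρ ^ m : ℝ) ∧ v x₀ = B * m ∧
    (∀ z ∈ XX r κ, v z = B * Real.log ‖φ z‖ / Real.log ρ) ∧
    ∀ z ∈ XX r κ, z ≠ x₀ → Q z * φ z ^ 2 = deriv φ z ^ 2 * ((B / Real.log ρ : ℝ) *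
      (m + (vk ρ (φ z / (ρ ^ m : ℝ)) - vk ρ (φ z * (ρ ^ m : ℝ))) / 2))

/-- The formula when the arc meets the inner circle. -/
def FormH (r B x₀ : ℝ) (κ : ℝ → ℂ) (Q : ℂ → ℂ) (v : ℂ → ℝ) : Prop :=
  ∃ (θ : ℝ) (φ : ℂ → ℂ), 0 < θ ∧ θ < π ∧ DifferentiableOn ℂ φ (XX r κ) ∧
    BijOn φ (XX r κ) {u | 0 < u.re ∧ u.re < π} ∧ φ x₀ = θ ∧ v x₀ = B * θ / π ∧
    (∀ z ∈ XX r κ, v z = B * (φ z).re / π) ∧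
    ∀ z ∈ XX r κ, z ≠ x₀ →
      Q z = deriv φ z ^ 2 * ((B / π * Real.sin θ : ℝ) / (cos (φ z) - cos θ))

/-- Conformal map of the complement of the arc onto an annulus. -/
structure AN (r B x₀ : ℝ) (κ : ℝ → ℂ) (v : ℂ → ℝ) (Λ u₀ : ℝ) (φ ψ : ℂ → ℂ) : Prop where
  u0 : 0 < u₀
  u1 : u₀ < Λ
  dφ : DifferentiableOn ℂ φ (XX r κ)
  bij : BijOn φ (XX r κ) (ann (Real.exp (-Λ)))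
  dne : ∀ z ∈ XX r κ, deriv φ z ≠ 0
  dψ : DifferentiableOn ℂ ψ (ann (Real.exp (-Λ)))
  linv : ∀ z ∈ XX r κ, ψ (φ z) = z
  base : φ x₀ = Real.exp (-u₀)
  abs : ∀ z ∈ XX r κ, ‖φ z‖ = Real.exp (-(Λ * v z / B))

/-- Conformal map of the complement of the arc onto the disc. -/
structure DI (r B x₀ : ℝ) (κ : ℝ → ℂ) (v g : ℂ → ℝ) (s₀ s₁ : ℝ) (φ ψ : ℂ → ℂ) : Prop where
  lt : s₀ < s₁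
  lt' : s₁ < s₀ + 2 * π
  dφ : DifferentiableOn ℂ φ (XX r κ)
  bij : BijOn φ (XX r κ) (ball 0 1)
  dne : ∀ z ∈ XX r κ, deriv φ z ≠ 0
  dψ : DifferentiableOn ℂ ψ (ball 0 1)
  linv : ∀ z ∈ XX r κ, ψ (φ z) = z
  base : φ x₀ = 0
  v0 : ∀ t ∈ Ioo s₀ s₁, Tendsto (fun w => v (ψ w)) (𝓝[ball 0 1] (exp (I * t))) (𝓝 0)
  vB : ∀ t ∈ Ioo s₁ (s₀ + 2 * π), Tendsto (fun w => v (ψ w)) (𝓝[ball 0 1] (exp (I * t))) (𝓝 B)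
  expo : ∀ p : ℂ, ‖p‖ = r → p ∉ KK κ → ∃ η > 0, ∀ᶠ z in 𝓝[XX r κ] p,
    η ≤ ‖φ z - exp (I * s₀)‖ ∧ η ≤ ‖φ z - exp (I * s₁)‖
  green : ∀ z ∈ XX r κ, z ≠ x₀ → g z = -Real.log ‖φ z‖

/-- The square root with values in the first quadrant on the upper half plane. -/
noncomputable def rt (w : ℂ) : ℂ := exp (π / 4 * I) * (-I * w) ^ (1 / 2 : ℂ)

/-- The primitive of the square root of the model differential. -/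
structure PH (Λ u₀ c : ℝ) (fin : Prop) (T Φ : ℂ → ℂ) : Prop where
  cont : ContinuousOn Φ (PC Λ fin)
  zero : Φ 0 = 0
  ext : ∀ p ∈ PC Λ fin, p ≠ u₀ → (fin → p ≠ c + π * I) → ∃ Φ' : ℂ → ℂ,
    (∀ᶠ u in 𝓝 p, HasDerivAt Φ' (rt (T u)) u) ∧ ∀ᶠ u in 𝓝[PC Λ fin] p, Φ u = Φ' u
  inf : ¬ fin → ∃ ℓ : ℂ, Tendsto Φ (comap Complex.im atTop ⊓ 𝓟 (PC Λ fin)) (𝓝 ℓ)

/-- The open L-shaped polygon. -/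
def Lo (a₁ a₃ b₃ b₂ : ℝ) : Set ℂ :=
  {ζ | 0 < ζ.re ∧ ζ.re < b₃ + b₂ ∧ 0 < ζ.im ∧ (ζ.im < a₁ ∨ (b₃ < ζ.re ∧ ζ.im < a₁ + a₃))}

/-- The two kinds of shapes. -/
def Sh (a₁ a₃ b₃ b₂ : ℝ) : Prop :=
  0 < a₁ ∧ 0 < b₂ ∧ ((0 < a₃ ∧ 0 < b₃) ∨ (a₃ = 0 ∧ b₃ = 0))

/-- The boundary correspondence of the model with the polygon. -/
structure LB (Λ u₀ c : ℝ) (fin : Prop) (T Φ : ℂ → ℂ) (a₁ a₃ b₃ b₂ : ℝ) : Prop where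
  sh : Sh a₁ a₃ b₃ b₂
  fin_iff : fin ↔ 0 < a₃
  inj : InjOn Φ (PC Λ fin)
  maps : MapsTo Φ (PP Λ fin) (Lo a₁ a₃ b₃ b₂)
  bdy : ∀ u ∈ PC Λ fin, u ∉ PP Λ fin → Φ u ∉ Lo a₁ a₃ b₃ b₂
  p0 : Φ u₀ = (b₃ + b₂ : ℝ)
  pc : fin → Φ (c + π * I) = b₃ + a₁ * I
  lim : ¬ fin → Tendsto Φ (comap Complex.im atTop ⊓ 𝓟 (PC Λ fin)) (𝓝 (a₁ * I)) ∧
    ∀ u ∈ PC Λ fin, Φ u ≠ a₁ * I
  bl : Φ '' {u | u.im = 0 ∧ 0 < u.re ∧ u.re < u₀} = {ζ | ζ.im = 0 ∧ 0 < ζ.re ∧ ζ.re < b₃ + b₂}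
  br : Φ '' {u | u.im = 0 ∧ u₀ < u.re ∧ u.re < Λ} =
    {ζ | ζ.re = b₃ + b₂ ∧ 0 < ζ.im ∧ ζ.im < a₁ + a₃}
  lf : Φ '' {u | u.re = 0 ∧ 0 < u.im ∧ (fin → u.im < π)} = {ζ | ζ.re = 0 ∧ 0 < ζ.im ∧ ζ.im < a₁}
  rg : Φ '' {u | u.re = Λ ∧ 0 < u.im ∧ (fin → u.im < π)} =
    {ζ | ζ.im = a₁ + a₃ ∧ b₃ < ζ.re ∧ ζ.re < b₃ + b₂}
  tl : fin → Φ '' {u | u.im = π ∧ 0 < u.re ∧ u.re < c} = {ζ | ζ.im = a₁ ∧ 0 < ζ.re ∧ ζ.re < b₃}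
  tr : fin → Φ '' {u | u.im = π ∧ c < u.re ∧ u.re < Λ} =
    {ζ | ζ.re = b₃ ∧ a₁ < ζ.im ∧ ζ.im < a₁ + a₃}
  rng : ∀ u ∈ PC Λ fin, 0 ≤ (Φ u).re ∧ (Φ u).re ≤ b₃ + b₂ ∧ 0 ≤ (Φ u).im ∧
    (Φ u).im ≤ a₁ + a₃ ∧ ((Φ u).re < b₃ → (Φ u).im ≤ a₁)
  pos : ∀ u ∈ PC Λ fin, 0 < u.re → 0 < (Φ u).re
  unL : ∀ ε > 0, ∃ δ > 0, ∀ u ∈ PC Λ fin, u.re < δ → (Φ u).re < ε
  unR : fin → ∀ ε > 0, ∃ δ > 0, ∀ u ∈ PC Λ fin, Λ - δ < u.re → a₁ + a₃ - ε < (Φ u).im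

/-- The inverse map. -/
structure LI (Λ : ℝ) (fin : Prop) (T Φ U : ℂ → ℂ) (a₁ a₃ b₃ b₂ : ℝ) : Prop where
  linv : ∀ u ∈ PC Λ fin, U (Φ u) = u
  cont : ContinuousOn U (Φ '' PC Λ fin)
  img : Φ '' PP Λ fin = Lo a₁ a₃ b₃ b₂
  der : ∀ ζ ∈ Lo a₁ a₃ b₃ b₂, HasDerivAt U (rt (T (U ζ)))⁻¹ ζ

/-- The folded coordinate on the complement of the arc. -/
structure UH (r : ℝ) (κ : ℝ → ℂ) (Λ : ℝ) (fin : Prop) (Ψ w : ℂ → ℂ) : Prop where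
  cont : ContinuousOn w (XX r κ)
  mem : ∀ z ∈ XX r κ, w z ∈ PC Λ fin ∧ w z ∈ Str Λ
  rep : ∀ z ∈ XX r κ, Ψ (w z) = z ∨ Ψ (conj (w z)) = z
  inv : ∀ u ∈ PC Λ fin, u ∈ Str Λ → w (Ψ u) = u ∧ w (Ψ (conj u)) = u

/-- All data attached to one configuration. -/
structure Dat where
  (r B x₀ : ℝ)
  (z₁ a b : ℂ)
  (c : ℝ)
  (κ : ℝ → ℂ)
  (v g : ℂ → ℝ)
  (fin : Prop)
  (Λ u₀ cc : ℝ)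
  (Ψ T Φ U w : ℂ → ℂ)
  (a₁ a₃ b₃ b₂ : ℝ)

namespace Dat

variable (d : Dat)

/-- The quadratic differential. -/
noncomputable def Q : ℂ → ℂ := QD d.r d.x₀ d.z₁ d.a d.b d.c

open Classical in
/-- The horizontal distance from the arc and the outer circle. -/
noncomputable def x (z : ℂ) : ℝ := if z ∈ XX d.r d.κ then (d.Φ (d.w z)).re else 0

open Classical in
/-- The truncated height. -/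
noncomputable def Y (z : ℂ) : ℝ := if z ∈ XX d.r d.κ then max (d.Φ (d.w z)).im d.a₁ else d.a₁

/-- The natural parameter on the doubled polygon. -/
noncomputable def Z (ζ : ℂ) : ℂ :=
  if ζ.re ≤ d.b₃ + d.b₂ then d.Ψ (d.U ζ)
  else d.Ψ (conj (d.U (2 * (d.b₃ + d.b₂ : ℝ) - conj ζ)))

/-- The natural parameter of the collar. -/
noncomputable def F (η : ℂ) : ℂ :=
  if η.re ≤ 0 then d.Ψ (d.U (-I * η)) else d.Ψ (conj (d.U (conj (-I * η))))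

end Dat

/-- The frame of the gluing packages. -/
structure GF (d : Dat) : Prop where
  zc : ZC d.r d.B d.x₀ d.z₁ d.a d.b d.c d.κ d.v d.g
  ba : BA d.r d.B d.x₀ d.z₁ d.a d.b d.c d.κ d.v
  ka : KA d.r d.x₀ d.z₁ d.κ d.Q
  un : UN d.r d.B d.x₀ d.κ d.Q d.v d.fin d.Λ d.u₀ d.Ψ d.T
  md : MD d.Λ d.u₀ d.cc d.fin d.T
  ph : PH d.Λ d.u₀ d.cc d.fin d.T d.Φ
  lb : LB d.Λ d.u₀ d.cc d.fin d.T d.Φ d.a₁ d.a₃ d.b₃ d.b₂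
  li : LI d.Λ d.fin d.T d.Φ d.U d.a₁ d.a₃ d.b₃ d.b₂
  uh : UH d.r d.κ d.Λ d.fin d.Ψ d.w

/-! ### The flat structure -/

/-- The doubled polygon. -/
def DD2 (a₁ a₃ b₃ b₂ : ℝ) : Set ℂ :=
  {ζ | 0 < ζ.im ∧ ((0 < ζ.re ∧ ζ.re < 2 * (b₃ + b₂) ∧ ζ.im < a₁) ∨
    (b₃ < ζ.re ∧ ζ.re < b₃ + 2 * b₂ ∧ ζ.im < a₁ + a₃))}

/-- The rectangle of the collar. -/
def RR (a δ : ℝ) : Set ℂ := {η | -a < η.re ∧ η.re < a ∧ 0 < η.im ∧ η.im < δ}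

/-- The branch of the square root of `z (z - x₀)` cut along the upper half circle. -/
noncomputable def S0 (x₀ : ℝ) (z : ℂ) : ℂ := (z - x₀) * rt (z / (z - x₀))

/-- The cut of `S0`. -/
def Sig (x₀ : ℝ) : Set ℂ := {z | -I * (z / (z - x₀)) ∉ slitPlane}

/-- `x` is Lipschitz at `p` with the constant `√|Q p|`. -/
def LipQ (x : ℂ → ℝ) (Q : ℂ → ℂ) (p : ℂ) : Prop :=
  ∀ ε > 0, ∀ᶠ z in 𝓝 p, |x z - x p| ≤ (√‖Q p‖ + ε) * ‖z - p‖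

/-- The distance function. -/
structure FX (r x₀ : ℝ) (z₁ : ℂ) (κ : ℝ → ℂ) (Q : ℂ → ℂ) (b₁ : ℝ) (x : ℂ → ℝ) : Prop where
  cont : ContinuousOn x (ann r)
  zero : ∀ z ∈ KK κ, x z = 0
  pos : ∀ z ∈ XX r κ, 0 < x z
  rng : ∀ z, 0 ≤ x z ∧ x z ≤ b₁
  out : ∀ p : ℂ, ‖p‖ = 1 → Tendsto x (𝓝[ann r] p) (𝓝 0)
  hug : ∀ p : ℂ, ‖p‖ = r → (∀ᶠ q in 𝓝 p, ‖q‖ = r → q ∈ KK κ) → Tendsto x (𝓝[ann r] p) (𝓝 0)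
  expo : ∀ p : ℂ, ‖p‖ = r → p ∉ KK κ → ∃ η > 0, ∀ᶠ z in 𝓝[ann r] p, η ≤ x z

/-- The natural parameter. -/
structure FZ (r x₀ : ℝ) (κ : ℝ → ℂ) (Q : ℂ → ℂ) (a₁ a₃ b₃ b₂ : ℝ) (x : ℂ → ℝ) (Z : ℂ → ℂ) :
    Prop where
  d : DifferentiableOn ℂ Z (DD2 a₁ a₃ b₃ b₂)
  inj : InjOn Z (DD2 a₁ a₃ b₃ b₂)
  maps : ∀ ζ ∈ DD2 a₁ a₃ b₃ b₂, Z ζ ∈ XX r κ ∧ Z ζ ≠ x₀
  ode : ∀ ζ ∈ DD2 a₁ a₃ b₃ b₂, Q (Z ζ) * deriv Z ζ ^ 2 = 1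
  full : volume (ann r \ Z '' DD2 a₁ a₃ b₃ b₂) = 0
  xZ : ∀ ζ ∈ DD2 a₁ a₃ b₃ b₂, x (Z ζ) = b₃ + b₂ - |b₃ + b₂ - ζ.re|

/-- The collar. -/
structure FC (r : ℝ) (κ : ℝ → ℂ) (Q : ℂ → ℂ) (a₁ b₁ δ : ℝ) (x : ℂ → ℝ) (Z F : ℂ → ℂ) : Prop where
  δ0 : 0 < δ
  d : DifferentiableOn ℂ F (RR a₁ δ)
  inj : InjOn F (RR a₁ δ)
  maps : ∀ η ∈ RR a₁ δ, F η ∈ XX r κ
  ode : ∀ η ∈ RR a₁ δ, Q (F η) * deriv F η ^ 2 = -1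
  xF : ∀ η ∈ RR a₁ δ, x (F η) = η.im
  rel : ∀ t ∈ Ioo 0 δ, ∀ y ∈ Ioo 0 a₁, F (-y + t * I) = Z (t + y * I) ∧
    F (y + t * I) = Z ((2 * b₁ - t : ℝ) + y * I)
  seam : ∀ z ∈ XX r κ, x z < δ → z ∈ F '' RR a₁ δ ∨
    Tendsto (fun y : ℝ => F (y + x z * I)) (𝓝[<] a₁) (𝓝 z)

/-- The signed distance from the ridge, times a square root. -/
structure FN (r x₀ : ℝ) (κ : ℝ → ℂ) (a₁ a₃ b₃ b₂ : ℝ) (x : ℂ → ℝ) (Z N S : ℂ → ℂ) : Prop where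
  cont : ContinuousOn N (XX r κ)
  sq : ∀ z ∈ XX r κ, N z ^ 2 = (b₃ + b₂ - x z : ℝ) ^ 2 * (z * (z - x₀))
  near : ∃ δ > 0, ∀ z ∈ XX r κ, x z < δ → z ∉ Sig x₀ ∧ N z = (b₃ + b₂ - x z : ℝ) * S0 x₀ z
  Sc : ContinuousOn S (DD2 a₁ a₃ b₃ b₂)
  Ssq : ∀ ζ ∈ DD2 a₁ a₃ b₃ b₂, S ζ ^ 2 = Z ζ * (Z ζ - x₀)
  NZ : ∀ ζ ∈ DD2 a₁ a₃ b₃ b₂, N (Z ζ) = (b₃ + b₂ - ζ.re : ℝ) * S ζ

/-- The closed horizontal trajectories and the two transversals. -/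
structure FY (r x₀ : ℝ) (a₁ a₃ b₃ b₂ : ℝ) (x Y : ℂ → ℝ) (Z : ℂ → ℂ) : Prop where
  cont : ContinuousOn Y (ann r)
  base : Y x₀ = a₁
  out : ∀ p : ℂ, ‖p‖ = 1 → Tendsto Y (𝓝[ann r] p) (𝓝 a₁)
  inn : 0 < a₃ → ∀ p : ℂ, ‖p‖ = r → Tendsto Y (𝓝[ann r] p) (𝓝 (a₁ + a₃))
  lev : ∀ y ∈ Ioo a₁ (a₁ + a₃),
    ContinuousOn (fun t : ℝ => Z (t + y * I)) (Icc b₃ (b₃ + 2 * b₂)) ∧
    Z (b₃ + y * I) = Z ((b₃ + 2 * b₂ : ℝ) + y * I) ∧ Z (b₃ + y * I) ∈ ann r ∧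
    ∀ z ∈ ann r, Y z = y → ∃ t ∈ Icc b₃ (b₃ + 2 * b₂), Z (t + y * I) = z
  sig : ∃ σ : Set ℂ, IsPreconnected σ ∧ σ ⊆ ann r ∧ (x₀ : ℂ) ∈ σ ∧ (∀ z ∈ σ, x z = b₃ + b₂) ∧
    ∃ p ∈ closure σ, ‖p‖ = r
  tau : ∃ τ : Set ℂ, IsPreconnected τ ∧ τ ⊆ ann r ∧ (∀ z ∈ τ, x z ≤ b₃) ∧
    (∃ p ∈ closure τ, ‖p‖ = r) ∧ ∃ p ∈ closure τ, ‖p‖ = 1

/-- The L-shaped polygon with the reflex corner at the origin. -/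
def Lc (a₁ a₃ b₃ b₂ : ℝ) : Set ℂ :=
  {ζ | -b₃ < ζ.re ∧ ζ.re < b₂ ∧ -a₁ < ζ.im ∧ (ζ.im < 0 ∨ (0 < ζ.re ∧ ζ.im < a₃))}

/-- The gradient of the Green function in the natural parameter. -/
structure AS (a₁ a₃ b₃ b₂ : ℝ) (s : ℂ → ℂ) : Prop where
  a1 : 0 < a₁
  a3 : 0 < a₃
  b3 : 0 < b₃
  b2 : 0 < b₂
  d : DifferentiableOn ℂ s (Lc a₁ a₃ b₃ b₂)
  quad : ∀ ζ ∈ Lc a₁ a₃ b₃ b₂, 0 < (s ζ).re ∧ 0 < (s ζ).im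
  cont : ContinuousOn s (Lc a₁ a₃ b₃ b₂ ∪ {ζ | ζ.im = 0 ∧ -b₃ < ζ.re ∧ ζ.re < 0} ∪
    {ζ | ζ.re = 0 ∧ 0 < ζ.im ∧ ζ.im < a₃})
  hor : ∀ x ∈ Ioo (-b₃) 0, (s x).im = 0 ∧ 0 < (s x).re
  ver : ∀ y ∈ Ioo 0 a₃, (s (y * I)).re = 0 ∧ 0 < (s (y * I)).im
  argL : ∀ y ∈ Ioo (-a₁) 0,
    Tendsto (fun ζ => arg (s ζ)) (𝓝[Lc a₁ a₃ b₃ b₂] (-b₃ + y * I)) (𝓝 0)
  argB : ∀ x ∈ Ioo (-b₃) b₂,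
    Tendsto (fun ζ => arg (s ζ)) (𝓝[Lc a₁ a₃ b₃ b₂] (x - a₁ * I)) (𝓝 0)
  argR : ∀ y ∈ Ioo (-a₁) a₃,
    Tendsto (fun ζ => arg (s ζ)) (𝓝[Lc a₁ a₃ b₃ b₂] (b₂ + y * I)) (𝓝 (π / 2))
  argT : ∀ x ∈ Ioo 0 b₂,
    Tendsto (fun ζ => arg (s ζ)) (𝓝[Lc a₁ a₃ b₃ b₂] (x + a₃ * I)) (𝓝 (π / 2))
  asy : ∃ C : ℝ, 0 < C ∧ Tendsto (fun x : ℝ => ‖s (-x)‖ ^ 3 / x) (𝓝[>] 0) (𝓝 C) ∧
    Tendsto (fun y : ℝ => ‖s (y * I)‖ ^ 3 / y) (𝓝[>] 0) (𝓝 C)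
  intH : IntervalIntegrable (fun x : ℝ => ‖s x‖) volume (-b₃) 0
  intV : IntervalIntegrable (fun y : ℝ => ‖s (y * I)‖) volume 0 a₃
  sp : ∫ x in (-b₃)..0, ‖s x‖ = ∫ y in (0 : ℝ)..a₃, ‖s (y * I)‖

/-- The flat data of a configuration. -/
structure Fl where
  (κ : ℝ → ℂ)
  (Q : ℂ → ℂ)
  (a₁ a₃ b₃ b₂ δ : ℝ)
  (x Y : ℂ → ℝ)
  (Z F N S : ℂ → ℂ)

/-- The flat structure. -/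
structure FL (r x₀ : ℝ) (z₁ : ℂ) (f : Fl) : Prop where
  ka : KA r x₀ z₁ f.κ f.Q
  sh : Sh f.a₁ f.a₃ f.b₃ f.b₂
  fx : FX r x₀ z₁ f.κ f.Q (f.b₃ + f.b₂) f.x
  lip : ∀ p ∈ ann r, p ≠ x₀ → p ≠ z₁ → LipQ f.x f.Q p
  fz : FZ r x₀ f.κ f.Q f.a₁ f.a₃ f.b₃ f.b₂ f.x f.Z
  fc : FC r f.κ f.Q f.a₁ (f.b₃ + f.b₂) f.δ f.x f.Z f.F
  fn : FN r x₀ f.κ f.a₁ f.a₃ f.b₃ f.b₂ f.x f.Z f.N f.S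
  fy : FY r x₀ f.a₁ f.a₃ f.b₃ f.b₂ f.x f.Y f.Z
  as : 0 < f.a₃ → ∃ s, AS f.a₁ f.a₃ f.b₃ f.b₂ s

/-- `ξ` is an unfolding of `x ∈ [0, b]`. -/
def Rel (b ξ x : ℝ) : Prop := ∃ k : ℤ, ξ = 2 * b * k + x ∨ ξ = 2 * b * k - x

/-- A bounded function near the arc and the outer circle that is odd across the arc. -/
structure GO (r : ℝ) (κ : ℝ → ℂ) (x G : ℂ → ℝ) : Prop where
  cont : ∃ δ > 0, ContinuousOn G {z | z ∈ XX r κ ∧ x z < δ}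
  bdd : ∃ C : ℝ, ∀ z ∈ XX r κ, |G z| ≤ C
  bd : ∃ S : Set ℂ, S.Finite ∧ ∀ p : ℂ, p ∉ S → (‖p‖ = 1 ∨ (‖p‖ = r ∧ p ∈ KK κ)) →
    LS G (XX r κ) p 0
  odd : ∀ t ∈ Ioo (0 : ℝ) 1, r < ‖κ t‖ → Odd2 (KK κ) G (κ t) fun _ => True

/-- The distance function of `f` developed along the natural parameter of `f'`. -/
structure DV (r : ℝ) (f f' : Fl) (ξ G : ℂ → ℝ) : Prop where
  cont : ContinuousOn ξ (DD2 f'.a₁ f'.a₃ f'.b₃ f'.b₂)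
  rel : ∀ ζ ∈ DD2 f'.a₁ f'.a₃ f'.b₃ f'.b₂, Rel (f.b₃ + f.b₂) (ξ ζ) (f.x (f'.Z ζ))
  ends : ∃ δ : ℝ, 0 < δ ∧ ∀ t ∈ Ioo 0 δ, ∀ y ∈ Ioo 0 f'.a₁,
    ξ (t + y * I) = G (f'.Z (t + y * I)) ∧
    ξ ((2 * (f'.b₃ + f'.b₂) - t : ℝ) + y * I) =
      2 * (f.b₃ + f.b₂) - G (f'.Z ((2 * (f'.b₃ + f'.b₂) - t : ℝ) + y * I))
  go : GO r f'.κ f'.x G

/-- The welding inequality. -/
def WE (f' : Fl) (G : ℂ → ℝ) : Prop :=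
  ∀ η > 0, ∀ᶠ t : ℝ in 𝓝[>] 0, ∫ y in (-f'.a₁)..f'.a₁, G (f'.F (y + t * I)) ≤ η

/-- The metric of `f` in the natural parameter of `f'`. -/
noncomputable def den (f f' : Fl) (ζ : ℂ) : ℝ := √‖f.Q (f'.Z ζ)‖ * ‖deriv f'.Z ζ‖

/-- Boundary values of the collar map. -/
structure FB (r : ℝ) (κ : ℝ → ℂ) (a δ : ℝ) (F : ℂ → ℂ) (Fb : ℝ → ℂ) : Prop where
  lim : ∀ y ∈ Icc (-a) a, Tendsto F (𝓝[RR a δ] (y : ℂ)) (𝓝 (Fb y))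
  mem : ∀ y ∈ Icc (-a) a, Fb y ∈ KK κ ∨ ‖Fb y‖ = 1
  null : ∀ p : ℂ, volume {y | y ∈ Ioo (-a) a ∧ Fb y = p} = 0

/-- The parameters that correspond to the two sides of the arc. -/
def YY (r : ℝ) (κ : ℝ → ℂ) (a : ℝ) (Fb : ℝ → ℂ) : Set ℝ :=
  {y | y ∈ Ioo (-a) a ∧ (∃ t ∈ Ioo (0 : ℝ) 1, r < ‖κ t‖ ∧ κ t = Fb y) ∧ Fb y ≠ Fb a ∧
    Fb y ≠ Fb (-a)}

/-- The welding involution. -/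
structure IO (r : ℝ) (κ : ℝ → ℂ) (a : ℝ) (F : ℂ → ℂ) (Fb : ℝ → ℂ) (ι : ℝ → ℝ) : Prop where
  opn : IsOpen (YY r κ a Fb)
  maps : MapsTo ι (YY r κ a Fb) (YY r κ a Fb)
  inv : ∀ y ∈ YY r κ a Fb, ι (ι y) = y
  der : ∀ y ∈ YY r κ a Fb, HasDerivAt ι (-1) y
  side : ∀ y ∈ YY r κ a Fb, ∀ V ∈ 𝓝 (Fb y), ∃ O ∈ 𝓝 (Fb y), O ⊆ V ∧ ∃ A₁ A₂ : Set ℂ,
    IsPreconnected A₁ ∧ IsPreconnected A₂ ∧ O \ KK κ = A₁ ∪ A₂ ∧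
    Tendsto (fun t : ℝ => F (y + t * I)) (𝓝[>] 0) (𝓝[A₁] (Fb y)) ∧
    Tendsto (fun t : ℝ => F (ι y + t * I)) (𝓝[>] 0) (𝓝[A₂] (Fb y))

/-- Local domination by the metric. -/
structure DM (f f' : Fl) (ξ : ℂ → ℝ) : Prop where
  cont : ContinuousOn (den f f') (DD2 f'.a₁ f'.a₃ f'.b₃ f'.b₂)
  xc : ContinuousOn (fun ζ => f.x (f'.Z ζ)) (DD2 f'.a₁ f'.a₃ f'.b₃ f'.b₂)
  domx : ∀ ζ₀ ∈ DD2 f'.a₁ f'.a₃ f'.b₃ f'.b₂, ∀ ε > 0, ∀ᶠ ζ in 𝓝 ζ₀,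
    |f.x (f'.Z ζ) - f.x (f'.Z ζ₀)| ≤ (den f f' ζ₀ + ε) * ‖ζ - ζ₀‖
  dom : ∀ ζ₀ ∈ DD2 f'.a₁ f'.a₃ f'.b₃ f'.b₂, ∀ ε > 0, ∀ᶠ ζ in 𝓝 ζ₀,
    |ξ ζ - ξ ζ₀| ≤ (den f f' ζ₀ + ε) * ‖ζ - ζ₀‖

/-- The mean increment along the long trajectories. -/
def EN (f f' : Fl) (ξ : ℂ → ℝ) (W : ℝ → ℝ) : Prop :=
  ∀ η > 0, ∀ᶠ t : ℝ in 𝓝[>] 0, IntervalIntegrable (fun y : ℝ =>
      W (ξ ((2 * (f'.b₃ + f'.b₂) - t : ℝ) + y * I)) - W (ξ (t + y * I))) volume 0 f'.a₁ ∧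
    2 * W (f.b₃ + f.b₂) * f'.a₁ - η ≤ ∫ y in (0 : ℝ)..f'.a₁,
      (W (ξ ((2 * (f'.b₃ + f'.b₂) - t : ℝ) + y * I)) - W (ξ (t + y * I)))

/-- Lower bounds for the weighted lengths of the trajectories. -/
def LW (f f' : Fl) : Prop :=
  ∀ ω : ℝ → ℝ, Continuous ω → (∀ t, 0 ≤ ω t) →
    ENNReal.ofReal (2 * f'.a₁ * ∫ t in (0 : ℝ)..(f.b₃ + f.b₂), ω t) ≤
      (∫⁻ y in Ioo 0 f'.a₁, ∫⁻ t in Ioo 0 (2 * (f'.b₃ + f'.b₂)),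
        ENNReal.ofReal (ω (f.x (f'.Z (t + y * I))) * den f f' (t + y * I))) ∧
    ∀ y ∈ Ioo f'.a₁ (f'.a₁ + f'.a₃), ENNReal.ofReal (2 * ∫ t in f.b₃..(f.b₃ + f.b₂), ω t) ≤
      ∫⁻ t in Ioo f'.b₃ (f'.b₃ + 2 * f'.b₂),
        ENNReal.ofReal (ω (f.x (f'.Z (t + y * I))) * den f f' (t + y * I))

/-- The tent function. -/
noncomputable def tent (b t : ℝ) : ℝ := b / π * Real.arccos (Real.cos (π * t / b))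

/-- The length-area inequality. -/
def JI (a₁ a₃ b₃ b₂ a₁' a₃' b₃' b₂' : ℝ) : Prop :=
  ∀ ω : ℝ → ℝ, Continuous ω → (∀ t, 0 ≤ ω t) →
    (a₁' * (∫ t in (0 : ℝ)..(b₃ + b₂), ω t) + a₃' * ∫ t in b₃..(b₃ + b₂), ω t) ^ 2 ≤
      (a₁ * (∫ t in (0 : ℝ)..(b₃ + b₂), ω t ^ 2) + a₃ * ∫ t in b₃..(b₃ + b₂), ω t ^ 2) *
        (a₁' * (b₃' + b₂') + a₃' * b₂')

end Pool.Agent.P.MP_3bd355_an
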