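import Pool.Agent.P.MP_3bd355_an.Z.All

/-! The case `A = 0`: final form. -/

open Set Filter Metric Complex InnerProductSpace MeasureTheory
open scoped Topology ComplexConjugate Real

namespace Pool.Agent.P.MP_3bd355_an

theorem zero_thm (r B x₀ : ℝ) (z₁ : ℂ) (hr : 0 < r) (h₀ : r < x₀) (h₀' : x₀ < 1) (h₁ : z₁ ∈ ann r)
    (hB : 0 < B) (hi : z₁.im ≤ 0) (hne : z₁ ≠ x₀) :
    ∃ (a b : ℂ) (c : ℝ) (κ : ℝ → ℂ) (v g : ℂ → ℝ), Crit r 0 B x₀ z₁ a b c κ v g ∧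
      (∀ t ∈ Icc (0 : ℝ) 1, (κ t).im ≤ 0) ∧
      (∀ (a' b' : ℂ) (c' : ℝ) (κ' : ℝ → ℂ) (v' g' : ℂ → ℝ), Crit r 0 B x₀ z₁ a' b' c' κ' v' g' →
        (∀ t ∈ Icc (0 : ℝ) 1, (κ' t).im ≤ 0) → a' = a ∧ b' = b ∧ c' = c ∧
          κ' '' Icc 0 1 = κ '' Icc 0 1 ∧ EqOn v' v (ann r)) ∧
      Msup r 0 B x₀ z₁ = v x₀ ∧
      (∀ u : ℂ → EReal, (Adm r 0 B z₁ u ∧ u x₀ = Msup r 0 B x₀ z₁) ↔ NH r κ ∧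
        ((∀ z ∈ ann r, u z = v z) ∨ (z₁.im = 0 ∧ ∀ z ∈ ann r, u z = v (conj z)))) ∧
      (NH r κ → FormN r B x₀ κ (QD r x₀ z₁ a b c) v) ∧
      (¬ NH r κ → FormH r B x₀ κ (QD r x₀ z₁ a b c) v) := by
  obtain ⟨a, b, c, κ, v, g, zc, h1, h2⟩ := zall_MAIN r B x₀ z₁ hr h₀ h₀' h₁ hB hi hne
  exact ⟨a, b, c, κ, v, g, zc.crit, zc.low, fun a' b' c' κ' v' g' k k' =>
    zall_UNIQ _ _ _ _ _ _ _ _ _ _ _ _ _ _ _ _ zc ⟨zc.ch, zc.x0, k, k'⟩, h1, h2,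
    (zall_GF _ _ _ _ _ _ _ _ _ _ zc).2⟩

end Pool.Agent.P.MP_3bd355_an
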