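import Pool.Agent.P.MP_3bd355_an.Z.Tools

/-! The case `A = 0`: statements of the packages. -/

open Set Filter Metric Complex InnerProductSpace MeasureTheory
open scoped Topology ComplexConjugate Real

namespace Pool.Agent.P.MP_3bd355_an

/-! ### General tools -/

/-- Primitives on simply connected domains. -/
def Z_PRIM : Prop := ∀ (U : Set ℂ) (f : ℂ → ℂ), IsOpen U → IsPreconnected U → NC U → U ≠ univ →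
  DifferentiableOn ℂ f U → ∃ F : ℂ → ℂ, ∀ z ∈ U, HasDerivAt F (f z) z

/-- The inverse of a conformal map. -/
def Z_INV : Prop := ∀ (U : Set ℂ) (f : ℂ → ℂ), IsOpen U → DifferentiableOn ℂ f U → InjOn f U →
  (∀ z ∈ U, deriv f z ≠ 0) → IsOpen (f '' U) ∧ ∃ h : ℂ → ℂ, (∀ z ∈ U, h (f z) = z) ∧
    ∀ z ∈ U, HasDerivAt h (deriv f z)⁻¹ (f z)

/-- Removability of a vertical line. -/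
def Z_PAIN : Prop := ∀ (U : Set ℂ) (f : ℂ → ℂ) (s : ℝ), IsOpen U → ContinuousOn f U →
  (∀ z ∈ U, z.re ≠ s → DifferentiableAt ℂ f z) → DifferentiableOn ℂ f U

/-- The increment of a function with bounded Dini derivatives. -/
def Z_DINI : Prop := ∀ (f g : ℝ → ℝ) (a b : ℝ), a ≤ b → ContinuousOn f (Icc a b) →
  ContinuousOn g (Ioo a b) → (∀ t ∈ Ioo a b, 0 ≤ g t) →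
  (∀ t ∈ Ioo a b, ∀ ε > 0, ∀ᶠ s in 𝓝 t, |f s - f t| ≤ (g t + ε) * |s - t|) →
  ENNReal.ofReal |f b - f a| ≤ ∫⁻ t in Ioo a b, ENNReal.ofReal (g t)

/-- Conformal change of variables. -/
def Z_COV : Prop := ∀ (U : Set ℂ) (f : ℂ → ℂ) (h : ℂ → ENNReal), IsOpen U →
  DifferentiableOn ℂ f U → InjOn f U →
  ∫⁻ z in f '' U, h z = ∫⁻ ζ in U, ENNReal.ofReal (‖deriv f ζ‖ ^ 2) * h (f ζ)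

/-- A proper holomorphic map of degree one is conformal. -/
def Z_DEG : Prop := ∀ (X Y N : Set ℂ) (φ : ℂ → ℂ) (z : ℂ), IsOpen X → IsPreconnected X →
  IsOpen Y → IsPreconnected Y → DifferentiableOn ℂ φ X → MapsTo φ X Y →
  (∀ C : Set ℂ, IsCompact C → C ⊆ Y → IsCompact (X ∩ φ ⁻¹' C)) → IsOpen N → N ⊆ X → InjOn φ N →
  z ∈ N → (∀ y ∈ X, φ y = φ z → y ∈ N) → BijOn φ X Y ∧ ∀ y ∈ X, deriv φ y ≠ 0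

/-! ### The arc -/

def Z_BA : Prop := ∀ (r B x₀ : ℝ) (z₁ a b : ℂ) (c : ℝ) (κ : ℝ → ℂ) (v g : ℂ → ℝ),
  ZC r B x₀ z₁ a b c κ v g → BA r B x₀ z₁ a b c κ v

def Z_KA : Prop := ∀ (r B x₀ : ℝ) (z₁ a b : ℂ) (c : ℝ) (κ : ℝ → ℂ) (v g : ℂ → ℝ),
  ZC r B x₀ z₁ a b c κ v g → BA r B x₀ z₁ a b c κ v → KA r x₀ z₁ κ (QD r x₀ z₁ a b c)

def Z_SQR : Prop := ∀ (r x₀ : ℝ) (z₁ : ℂ) (κ : ℝ → ℂ) (Q : ℂ → ℂ), KA r x₀ z₁ κ Q →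
  ∃ l, SQR z₁ κ l

/-- The arc is determined by its part inside the annulus. -/
def Z_KEQ1 : Prop := ∀ (r B x₀ : ℝ) (z₁ a b a' b' : ℂ) (c c' : ℝ) (κ κ' : ℝ → ℂ)
  (v g v' g' : ℂ → ℝ), ZC r B x₀ z₁ a b c κ v g → ZC r B x₀ z₁ a' b' c' κ' v' g' →
  KK κ' ∩ ann r = KK κ ∩ ann r → KK κ' = KK κ

/-- The configuration is determined by the part of the arc inside the annulus. -/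
def Z_KEQ : Prop := ∀ (r B x₀ : ℝ) (z₁ a b a' b' : ℂ) (c c' : ℝ) (κ κ' : ℝ → ℂ)
  (v g v' g' : ℂ → ℝ), ZC r B x₀ z₁ a b c κ v g → ZC r B x₀ z₁ a' b' c' κ' v' g' →
  BA r B x₀ z₁ a b c κ v → BA r B x₀ z₁ a' b' c' κ' v' → KK κ' ∩ ann r = KK κ ∩ ann r →
  a' = a ∧ b' = b ∧ c' = c ∧ KK κ' = KK κ ∧ EqOn v' v (ann r)

/-! ### Uniformisation -/

/-- The logarithmic cover of the complement of the arc is simply connected. -/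
def Z_COVR : Prop := ∀ (r ε : ℝ) (κ : ℝ → ℂ), 0 < r → 0 < ε → ContinuousOn κ (Icc 0 1) →
  (∀ t ∈ Icc (0 : ℝ) 1, r < ‖κ t‖) → ‖κ 1‖ = 1 → IsPreconnected (XX r κ) →
  {z : ℂ | r < ‖z‖ ∧ ‖z‖ < r + ε} ⊆ XX r κ →
  IsOpen (exp ⁻¹' XX r κ) ∧ IsPreconnected (exp ⁻¹' XX r κ) ∧ NC (exp ⁻¹' XX r κ)

/-- The radial derivative near the inner circle. -/
def Z_STRIP : Prop := ∀ (r B x₀ : ℝ) (z₁ a b : ℂ) (c : ℝ) (κ : ℝ → ℂ) (v g : ℂ → ℝ),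
  ZC r B x₀ z₁ a b c κ v g → BA r B x₀ z₁ a b c κ v → NH r κ →
  ∃ ε > 0, ∀ z : ℂ, r < ‖z‖ → ‖z‖ < r + ε → z ∈ XX r κ ∧ (z * grad v z).re < 0

def Z_CONJ : Prop := ∀ (r B x₀ : ℝ) (z₁ a b : ℂ) (c : ℝ) (κ : ℝ → ℂ) (v g : ℂ → ℝ),
  ZC r B x₀ z₁ a b c κ v g → BA r B x₀ z₁ a b c κ v → NH r κ →
  ∃ (Λ ε : ℝ) (φ : ℂ → ℂ), 0 < Λ ∧ 0 < ε ∧ DifferentiableOn ℂ φ (XX r κ) ∧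
    (∀ z ∈ XX r κ, ‖φ z‖ = Real.exp (-(Λ * v z / B))) ∧
    {z : ℂ | r < ‖z‖ ∧ ‖z‖ < r + ε} ⊆ XX r κ ∧ InjOn φ {z : ℂ | r < ‖z‖ ∧ ‖z‖ < r + ε}

def Z_AN : Prop := ∀ (r B x₀ : ℝ) (z₁ a b : ℂ) (c : ℝ) (κ : ℝ → ℂ) (v g : ℂ → ℝ),
  ZC r B x₀ z₁ a b c κ v g → BA r B x₀ z₁ a b c κ v → NH r κ →
  ∃ Λ u₀ φ ψ, AN r B x₀ κ v Λ u₀ φ ψ

/-- The integral of the model differential over the top side. -/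
def Z_VKI : Prop := ∀ B Λ u₀ : ℝ, 0 < u₀ → u₀ < Λ →
  ContinuousOn (fun x : ℝ => Tf B Λ u₀ (x + π * I)) (Icc 0 Λ) ∧
    ∫ x in (0 : ℝ)..Λ, (Tf B Λ u₀ (x + π * I)).re = 0

/-- The gradient of the Green function of an annulus. -/
def Z_GEXP : Prop := ∀ (Λ u₀ : ℝ) (g : ℂ → ℝ), 0 < u₀ → u₀ < Λ →
  HarmonicOnNhd g (ann (Real.exp (-Λ)) \ {(Real.exp (-u₀) : ℂ)}) →
  (∃ H : ℂ → ℝ, HarmonicAt H (Real.exp (-u₀) : ℂ) ∧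
    ∀ᶠ w in 𝓝[≠] (Real.exp (-u₀) : ℂ), g w = H w - Real.log ‖w - Real.exp (-u₀)‖) →
  (∀ p : ℂ, ‖p‖ = Real.exp (-Λ) ∨ ‖p‖ = 1 → Tendsto g (𝓝[ann (Real.exp (-Λ))] p) (𝓝 0)) →
  ∀ w ∈ ann (Real.exp (-Λ)), w ≠ Real.exp (-u₀) → w * grad g w = (u₀ / Λ : ℝ) +
    (vk (Real.exp (-Λ)) (w / Real.exp (-u₀)) - vk (Real.exp (-Λ)) (w * Real.exp (-u₀))) / 2

def Z_UNF : Prop := ∀ (r B x₀ : ℝ) (z₁ a b : ℂ) (c : ℝ) (κ : ℝ → ℂ) (v g : ℂ → ℝ) (Λ u₀ : ℝ)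
  (φ ψ : ℂ → ℂ), ZC r B x₀ z₁ a b c κ v g → BA r B x₀ z₁ a b c κ v → NH r κ →
  AN r B x₀ κ v Λ u₀ φ ψ →
  UN r B x₀ κ (QD r x₀ z₁ a b c) v True Λ u₀ (fun u => ψ (exp (-u))) (Tf B Λ u₀) ∧
    FormN r B x₀ κ (QD r x₀ z₁ a b c) v

def Z_DI : Prop := ∀ (r B x₀ : ℝ) (z₁ a b : ℂ) (c : ℝ) (κ : ℝ → ℂ) (v g : ℂ → ℝ),
  ZC r B x₀ z₁ a b c κ v g → BA r B x₀ z₁ a b c κ v → ¬ NH r κ →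
  ∃ s₀ s₁ φ ψ, DI r B x₀ κ v g s₀ s₁ φ ψ

/-- A conformal map of the strip onto the disc. -/
structure MO (s₀ s₁ u₀ : ℝ) (M : ℂ → ℂ) : Prop where
  u0 : 0 < u₀
  u1 : u₀ < π
  d : DifferentiableOn ℂ M (Str π)
  dne : ∀ u ∈ Str π, deriv M u ≠ 0
  bij : BijOn M (Str π) (ball 0 1)
  base : M u₀ = 0
  lder : ∀ u ∈ Str π, u ≠ u₀ → -(deriv M u / M u) = (Real.sin u₀ : ℝ) / (cos u - cos u₀)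
  left : ∀ p : ℂ, p.re = 0 → ∃ t ∈ Ioo s₀ s₁, Tendsto M (𝓝[Str π] p) (𝓝 (exp (I * t)))
  right : ∀ p : ℂ, p.re = π → ∃ t ∈ Ioo s₁ (s₀ + 2 * π), Tendsto M (𝓝[Str π] p) (𝓝 (exp (I * t)))
  ends : ∀ η > 0, ∃ C : ℝ, ∀ u ∈ Str π, η ≤ ‖M u - exp (I * s₀)‖ → η ≤ ‖M u - exp (I * s₁)‖ →
    |u.im| ≤ C

def Z_MOB : Prop := ∀ s₀ s₁ : ℝ, s₀ < s₁ → s₁ < s₀ + 2 * π → ∃ u₀ M, MO s₀ s₁ u₀ M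

def Z_UNH : Prop := ∀ (r B x₀ : ℝ) (z₁ a b : ℂ) (c : ℝ) (κ : ℝ → ℂ) (v g : ℂ → ℝ) (s₀ s₁ : ℝ)
  (φ ψ : ℂ → ℂ), ZC r B x₀ z₁ a b c κ v g → BA r B x₀ z₁ a b c κ v → ¬ NH r κ →
  DI r B x₀ κ v g s₀ s₁ φ ψ → ∃ (u₀ : ℝ) (Ψ : ℂ → ℂ), 0 < u₀ ∧ u₀ < π ∧
    UN r B x₀ κ (QD r x₀ z₁ a b c) v False π u₀ Ψ (Th B u₀) ∧
    FormH r B x₀ κ (QD r x₀ z₁ a b c) v

/-- The analytic properties of the model differential of the annulus. -/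
structure TA (Λ u₀ : ℝ) (T : ℂ → ℂ) : Prop where
  u0 : 0 < u₀
  u1 : u₀ < Λ
  symm : ∀ u, T (conj u) = conj (T u)
  ana : ∀ u ∈ PC Λ True, u ≠ u₀ → AnalyticAt ℂ T u
  pole : ∃ (k : ℝ) (R : ℂ → ℂ), 0 < k ∧ AnalyticAt ℂ R u₀ ∧
    ∀ᶠ u : ℂ in 𝓝[≠] (u₀ : ℂ), T u = -k / (u - u₀) + R u
  real : ∀ u ∈ PC Λ True, u.re = 0 ∨ u.re = Λ ∨ u.im = π → (T u).im = 0
  sp : ∫ x in (0 : ℝ)..Λ, (T (x + π * I)).re = 0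

def Z_TF1 : Prop := ∀ B Λ u₀ : ℝ, 0 < B → 0 < u₀ → u₀ < Λ → TA Λ u₀ (Tf B Λ u₀)

def Z_TF2 : Prop := ∀ (Λ u₀ : ℝ) (T : ℂ → ℂ), TA Λ u₀ T → ∃ c, MD Λ u₀ c True T

def Z_TF : Prop := ∀ B Λ u₀ : ℝ, 0 < B → 0 < u₀ → u₀ < Λ → ∃ c, MD Λ u₀ c True (Tf B Λ u₀)

def Z_TH : Prop := ∀ B u₀ : ℝ, 0 < B → 0 < u₀ → u₀ < π → MD π u₀ 0 False (Th B u₀)

/-! ### The polygon -/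

def Z_PH : Prop := ∀ (Λ u₀ c : ℝ) (fin : Prop) (T : ℂ → ℂ), MD Λ u₀ c fin T →
  ∃ Φ, PH Λ u₀ c fin T Φ

/-- Monotonicity of the primitive along horizontal and vertical segments. -/
structure MN (Λ u₀ c : ℝ) (fin : Prop) (Φ : ℂ → ℂ) : Prop where
  inj : InjOn Φ (PC Λ fin)
  hor : ∀ u ∈ PC Λ fin, ∀ u' ∈ PC Λ fin, u.im = u'.im → u.re ≤ u'.re →
    (Φ u).re ≤ (Φ u').re ∧ (Φ u).im ≤ (Φ u').im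
  horS : ∀ u ∈ PC Λ fin, ∀ u' ∈ PC Λ fin, u.im = u'.im → u.re < u'.re → 0 < u.im →
    (fin → u.im < π) → (Φ u).re < (Φ u').re ∧ (Φ u).im < (Φ u').im
  ver : ∀ u ∈ PC Λ fin, ∀ u' ∈ PC Λ fin, u.re = u'.re → u.im ≤ u'.im →
    (Φ u').re ≤ (Φ u).re ∧ (Φ u).im ≤ (Φ u').im
  verS : ∀ u ∈ PC Λ fin, ∀ u' ∈ PC Λ fin, u.re = u'.re → u.im < u'.im → 0 < u.re → u.re < Λ →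
    (Φ u').re < (Φ u).re ∧ (Φ u).im < (Φ u').im
  bl : ∀ x ∈ Icc 0 u₀, (Φ x).im = 0
  br : ∀ x ∈ Icc u₀ Λ, (Φ x).re = (Φ u₀).re
  lf : ∀ u ∈ PC Λ fin, u.re = 0 → (Φ u).re = 0
  rg : ∀ u ∈ PC Λ fin, u.re = Λ → (Φ u).im = (Φ Λ).im
  tl : fin → ∀ x ∈ Icc 0 c, (Φ (x + π * I)).im = (Φ (π * I)).im
  tr : fin → ∀ x ∈ Icc c Λ, (Φ (x + π * I)).re = (Φ (c + π * I)).re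

def Z_MN : Prop := ∀ (Λ u₀ c : ℝ) (fin : Prop) (T Φ : ℂ → ℂ), MD Λ u₀ c fin T →
  PH Λ u₀ c fin T Φ → MN Λ u₀ c fin Φ

def Z_LB : Prop := ∀ (Λ u₀ c : ℝ) (fin : Prop) (T Φ : ℂ → ℂ), MD Λ u₀ c fin T →
  PH Λ u₀ c fin T Φ → ∃ a₁ a₃ b₃ b₂, LB Λ u₀ c fin T Φ a₁ a₃ b₃ b₂

def Z_LI : Prop := ∀ (Λ u₀ c : ℝ) (fin : Prop) (T Φ : ℂ → ℂ) (a₁ a₃ b₃ b₂ : ℝ),
  MD Λ u₀ c fin T → PH Λ u₀ c fin T Φ → LB Λ u₀ c fin T Φ a₁ a₃ b₃ b₂ →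
  ∃ U, LI Λ fin T Φ U a₁ a₃ b₃ b₂

/-- The behaviour at the reflex corner and the integral identity. -/
def Z_AS2 : Prop := ∀ (Λ u₀ c : ℝ) (T Φ U : ℂ → ℂ) (a₁ a₃ b₃ b₂ : ℝ) (s : ℂ → ℂ),
  MD Λ u₀ c True T → PH Λ u₀ c True T Φ → LB Λ u₀ c True T Φ a₁ a₃ b₃ b₂ →
  LI Λ True T Φ U a₁ a₃ b₃ b₂ → (∀ ζ, s ζ = rt (T (U (ζ + (b₃ + a₁ * I))))) →
  (∃ C : ℝ, 0 < C ∧ Tendsto (fun x : ℝ => ‖s (-x)‖ ^ 3 / x) (𝓝[>] 0) (𝓝 C) ∧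
    Tendsto (fun y : ℝ => ‖s (y * I)‖ ^ 3 / y) (𝓝[>] 0) (𝓝 C)) ∧
  IntervalIntegrable (fun x : ℝ => ‖s x‖) volume (-b₃) 0 ∧
  IntervalIntegrable (fun y : ℝ => ‖s (y * I)‖) volume 0 a₃ ∧
  ∫ x in (-b₃)..0, ‖s x‖ = ∫ y in (0 : ℝ)..a₃, ‖s (y * I)‖

def Z_AS : Prop := ∀ (Λ u₀ c : ℝ) (T Φ U : ℂ → ℂ) (a₁ a₃ b₃ b₂ : ℝ),
  MD Λ u₀ c True T → PH Λ u₀ c True T Φ → LB Λ u₀ c True T Φ a₁ a₃ b₃ b₂ →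
  LI Λ True T Φ U a₁ a₃ b₃ b₂ → AS a₁ a₃ b₃ b₂ fun ζ => rt (T (U (ζ + (b₃ + a₁ * I))))

/-- Scaling. -/
def Z_ANT1 : Prop := ∀ (a₁ a₃ b₃ b₂ m : ℝ) (s : ℂ → ℂ), AS a₁ a₃ b₃ b₂ s → 0 < m →
  AS (m * a₁) (m * a₃) (m * b₃) (m * b₂) fun ζ => s (ζ / m)

/-- Comparison of the arguments. -/
def Z_ANT2 : Prop := ∀ (a₁ a₃ b₃ b₂ a₃' b₃' b₂' : ℝ) (s s' : ℂ → ℂ), AS a₁ a₃ b₃ b₂ s →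
  AS a₁ a₃' b₃' b₂' s' → a₃ ≤ a₃' → b₂ ≤ b₂' → b₃' ≤ b₃ →
  ∀ ζ ∈ Lc a₁ a₃ b₃' b₂, arg (s' ζ) ≤ arg (s ζ)

/-- Comparison of the moduli on the two sides at the reflex corner. -/
def Z_ANT3 : Prop := ∀ (a₁ a₃ b₃ b₂ a₃' b₃' b₂' : ℝ) (s s' : ℂ → ℂ), AS a₁ a₃ b₃ b₂ s →
  AS a₁ a₃' b₃' b₂' s' → a₃ ≤ a₃' → b₂ ≤ b₂' → b₃' ≤ b₃ →
  (∀ ζ ∈ Lc a₁ a₃ b₃' b₂, arg (s' ζ) ≤ arg (s ζ)) → ∃ l : ℝ, 0 < l ∧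
    (∀ x ∈ Ioo (-b₃') 0, l * ‖s' x‖ ≤ ‖s x‖) ∧ ∀ y ∈ Ioo 0 a₃, ‖s (y * I)‖ ≤ l * ‖s' (y * I)‖

def Z_ANTI : Prop := ∀ (a₁ a₃ b₃ b₂ a₁' a₃' b₃' b₂' : ℝ) (s s' : ℂ → ℂ), AS a₁ a₃ b₃ b₂ s →
  AS a₁' a₃' b₃' b₂' s' → a₃ * a₁' < a₃' * a₁ → b₂ * a₁' ≤ b₂' * a₁ → b₃' * a₁ ≤ b₃ * a₁' → False

def Z_ARITH : Prop := ∀ a₁ a₃ b₃ b₂ a₁' a₃' b₃' b₂' : ℝ, Sh a₁ a₃ b₃ b₂ → Sh a₁' a₃' b₃' b₂' →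
  JI a₁ a₃ b₃ b₂ a₁' a₃' b₃' b₂' → JI a₁' a₃' b₃' b₂' a₁ a₃ b₃ b₂ → a₃ * a₁' < a₃' * a₁ →
  0 < a₃ ∧ b₂ * a₁' ≤ b₂' * a₁ ∧ b₃' * a₁ ≤ b₃ * a₁'

/-! ### Gluing -/

def Z_UH : Prop := ∀ (r B x₀ : ℝ) (κ : ℝ → ℂ) (Q : ℂ → ℂ) (v : ℂ → ℝ) (fin : Prop) (Λ u₀ : ℝ)
  (Ψ T : ℂ → ℂ), UN r B x₀ κ Q v fin Λ u₀ Ψ T → ∃ w, UH r κ Λ fin Ψ w

def Z_FX : Prop := ∀ d : Dat, GF d → FX d.r d.x₀ d.z₁ d.κ d.Q (d.b₃ + d.b₂) d.x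

/-- The Lipschitz bound off the arc. -/
def Z_LIP1 : Prop := ∀ d : Dat, GF d → ∀ p ∈ XX d.r d.κ, p ≠ d.x₀ → LipQ d.x d.Q p

/-- The Lipschitz bound on the arc. -/
def Z_LIP2 : Prop := ∀ (r x₀ : ℝ) (z₁ : ℂ) (κ : ℝ → ℂ) (Q : ℂ → ℂ) (b₁ : ℝ) (x : ℂ → ℝ),
  KA r x₀ z₁ κ Q → FX r x₀ z₁ κ Q b₁ x → (∀ p ∈ XX r κ, p ≠ x₀ → LipQ x Q p) →
  ∀ p ∈ ann r, p ≠ x₀ → p ≠ z₁ → LipQ x Q p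

def Z_FZ : Prop := ∀ d : Dat, GF d → FZ d.r d.x₀ d.κ d.Q d.a₁ d.a₃ d.b₃ d.b₂ d.x d.Z

def Z_FC : Prop := ∀ d : Dat, GF d → ∃ δ, FC d.r d.κ d.Q d.a₁ (d.b₃ + d.b₂) δ d.x d.Z d.F

/-- A square root on the strip. -/
def Z_FN1 : Prop := ∀ (r B x₀ : ℝ) (κ : ℝ → ℂ) (Q : ℂ → ℂ) (v : ℂ → ℝ) (fin : Prop) (Λ u₀ : ℝ)
  (Ψ T : ℂ → ℂ), 0 < r → 0 < u₀ → u₀ < Λ → UN r B x₀ κ Q v fin Λ u₀ Ψ T →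
  ∃ ρ : ℂ → ℂ, ContinuousOn ρ {u | u ∈ Str Λ ∧ (fin → |u.im| < 2 * π)} ∧
    ∀ u ∈ Str Λ, (fin → |u.im| < 2 * π) → ρ u ≠ 0 ∧ ρ u ^ 2 * (u - u₀) = Ψ u * (Ψ u - x₀)

/-- The cut of `S0` stays away from the arc and the outer circle. -/
def Z_FN2 : Prop := ∀ (r x₀ : ℝ) (z₁ : ℂ) (κ : ℝ → ℂ) (Q : ℂ → ℂ) (b₁ : ℝ) (x : ℂ → ℝ),
  KA r x₀ z₁ κ Q → FX r x₀ z₁ κ Q b₁ x → ∃ δ > 0, ∀ z ∈ XX r κ, x z < δ → z ∉ Sig x₀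

def Z_FN : Prop := ∀ (d : Dat) (δ : ℝ), GF d → FX d.r d.x₀ d.z₁ d.κ d.Q (d.b₃ + d.b₂) d.x →
  FC d.r d.κ d.Q d.a₁ (d.b₃ + d.b₂) δ d.x d.Z d.F →
  ∃ N S, FN d.r d.x₀ d.κ d.a₁ d.a₃ d.b₃ d.b₂ d.x d.Z N S

/-- The two transversals. -/
def Z_FY2 : Prop := ∀ d : Dat, GF d → FX d.r d.x₀ d.z₁ d.κ d.Q (d.b₃ + d.b₂) d.x →
  (∃ σ : Set ℂ, IsPreconnected σ ∧ σ ⊆ ann d.r ∧ (d.x₀ : ℂ) ∈ σ ∧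
    (∀ z ∈ σ, d.x z = d.b₃ + d.b₂) ∧ ∃ p ∈ closure σ, ‖p‖ = d.r) ∧
  ∃ τ : Set ℂ, IsPreconnected τ ∧ τ ⊆ ann d.r ∧ (∀ z ∈ τ, d.x z ≤ d.b₃) ∧
    (∃ p ∈ closure τ, ‖p‖ = d.r) ∧ ∃ p ∈ closure τ, ‖p‖ = 1

def Z_FY : Prop := ∀ d : Dat, GF d → FX d.r d.x₀ d.z₁ d.κ d.Q (d.b₃ + d.b₂) d.x →
  FY d.r d.x₀ d.a₁ d.a₃ d.b₃ d.b₂ d.x d.Y d.Z

/-! ### The length-area inequality -/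

/-- The distance function of `f` unfolded across the arc of `f` and cut along the arc of `f'`. -/
structure GG (r x₀ : ℝ) (f f' : Fl) (G : ℂ → ℝ) : Prop where
  cont : ContinuousOn G (XX r f'.κ \ Sig x₀)
  rel : ∀ z ∈ XX r f'.κ, Rel (f.b₃ + f.b₂) (G z) (f.x z)
  up : ∀ z ∈ ann r, 0 < z.im → G z = f.b₃ + f.b₂ - (f.N z / S0 x₀ z).re
  go : GO r f'.κ f'.x G

def Z_DEV1 : Prop := ∀ (r x₀ : ℝ) (z₁ : ℂ) (f f' : Fl) (l l' : ℂ → ℂ), FL r x₀ z₁ f →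
  FL r x₀ z₁ f' → SQR z₁ f.κ l → SQR z₁ f'.κ l' → ∃ G, GG r x₀ f f' G

def Z_DEV2 : Prop := ∀ (r x₀ : ℝ) (z₁ : ℂ) (f f' : Fl) (G : ℂ → ℝ), FL r x₀ z₁ f →
  FL r x₀ z₁ f' → GG r x₀ f f' G → ∃ ξ, DV r f f' ξ G

def Z_DEV : Prop := ∀ (r x₀ : ℝ) (z₁ : ℂ) (f f' : Fl) (l l' : ℂ → ℂ), FL r x₀ z₁ f →
  FL r x₀ z₁ f' → SQR z₁ f.κ l → SQR z₁ f'.κ l' → ∃ ξ G, DV r f f' ξ G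

/-- Boundary values of the collar map. -/
def Z_FB : Prop := ∀ (r x₀ : ℝ) (z₁ : ℂ) (κ : ℝ → ℂ) (Q : ℂ → ℂ) (a b₁ δ : ℝ) (x : ℂ → ℝ)
  (Z F : ℂ → ℂ), KA r x₀ z₁ κ Q → FX r x₀ z₁ κ Q b₁ x → FC r κ Q a b₁ δ x Z F → 0 < a →
  ∃ Fb : ℝ → ℂ, FB r κ a δ F Fb

/-- The welding involution. -/
def Z_IOTA : Prop := ∀ (r x₀ : ℝ) (z₁ : ℂ) (κ : ℝ → ℂ) (Q : ℂ → ℂ) (a b₁ δ : ℝ) (x : ℂ → ℝ)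
  (Z F : ℂ → ℂ) (Fb : ℝ → ℂ), KA r x₀ z₁ κ Q → FX r x₀ z₁ κ Q b₁ x → FC r κ Q a b₁ δ x Z F →
  0 < a → FB r κ a δ F Fb → ∃ ι : ℝ → ℝ, IO r κ a F Fb ι

def Z_WELD : Prop := ∀ (r x₀ : ℝ) (z₁ : ℂ) (f : Fl) (Fb : ℝ → ℂ) (ι : ℝ → ℝ) (G : ℂ → ℝ),
  FL r x₀ z₁ f → FB r f.κ f.a₁ f.δ f.F Fb → IO r f.κ f.a₁ f.F Fb ι → GO r f.κ f.x G → WE f G

/-- Local domination by the metric. -/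
def Z_DOM : Prop := ∀ (r x₀ : ℝ) (z₁ : ℂ) (f f' : Fl) (ξ G : ℂ → ℝ), FL r x₀ z₁ f →
  FL r x₀ z₁ f' → DV r f f' ξ G → DM f f' ξ

/-- The increment of the developed function along the long trajectories. -/
def Z_ENDS : Prop := ∀ (r x₀ : ℝ) (z₁ : ℂ) (f f' : Fl) (ξ G : ℂ → ℝ) (W : ℝ → ℝ),
  FL r x₀ z₁ f' → DV r f f' ξ G → (∀ G', GO r f'.κ f'.x G' → WE f' G') → Continuous W →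
  Monotone W → (∀ t, W (-t) = -W t) →
  (∀ t, W (2 * (f.b₃ + f.b₂) - t) = 2 * W (f.b₃ + f.b₂) - W t) → EN f f' ξ W

def Z_LEAF1 : Prop := ∀ (r x₀ : ℝ) (z₁ : ℂ) (f f' : Fl) (ξ G : ℂ → ℝ) (ω : ℝ → ℝ),
  FL r x₀ z₁ f → FL r x₀ z₁ f' → DV r f f' ξ G → DM f f' ξ →
  (∀ W : ℝ → ℝ, Continuous W → Monotone W → (∀ t, W (-t) = -W t) →
    (∀ t, W (2 * (f.b₃ + f.b₂) - t) = 2 * W (f.b₃ + f.b₂) - W t) → EN f f' ξ W) →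
  Continuous ω → (∀ t, 0 ≤ ω t) →
  ENNReal.ofReal (2 * f'.a₁ * ∫ t in (0 : ℝ)..(f.b₃ + f.b₂), ω t) ≤
    ∫⁻ y in Ioo 0 f'.a₁, ∫⁻ t in Ioo 0 (2 * (f'.b₃ + f'.b₂)),
      ENNReal.ofReal (ω (f.x (f'.Z (t + y * I))) * den f f' (t + y * I))

def Z_LEAF2 : Prop := ∀ (r x₀ : ℝ) (z₁ : ℂ) (f f' : Fl) (ξ : ℂ → ℝ) (ω : ℝ → ℝ),
  FL r x₀ z₁ f → FL r x₀ z₁ f' → DM f f' ξ → Continuous ω → (∀ t, 0 ≤ ω t) →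
  ∀ y ∈ Ioo f'.a₁ (f'.a₁ + f'.a₃), ENNReal.ofReal (2 * ∫ t in f.b₃..(f.b₃ + f.b₂), ω t) ≤
    ∫⁻ t in Ioo f'.b₃ (f'.b₃ + 2 * f'.b₂),
      ENNReal.ofReal (ω (f.x (f'.Z (t + y * I))) * den f f' (t + y * I))

def Z_AREA : Prop := ∀ (r x₀ : ℝ) (z₁ : ℂ) (f f' : Fl) (ω : ℝ → ℝ), FL r x₀ z₁ f →
  FL r x₀ z₁ f' → Continuous ω →
  ∫⁻ ζ in DD2 f'.a₁ f'.a₃ f'.b₃ f'.b₂, ENNReal.ofReal ((ω (f.x (f'.Z ζ)) * den f f' ζ) ^ 2) =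
    ENNReal.ofReal (2 * (f.a₁ * (∫ t in (0 : ℝ)..(f.b₃ + f.b₂), ω t ^ 2) +
      f.a₃ * ∫ t in f.b₃..(f.b₃ + f.b₂), ω t ^ 2))

/-- Iterated integrals over the doubled polygon. -/
def Z_TON : Prop := ∀ (a₁ a₃ b₃ b₂ : ℝ) (h : ℂ → ENNReal), Sh a₁ a₃ b₃ b₂ →
  AEMeasurable h (volume.restrict (DD2 a₁ a₃ b₃ b₂)) →
  ∫⁻ ζ in DD2 a₁ a₃ b₃ b₂, h ζ =
    (∫⁻ y in Ioo 0 a₁, ∫⁻ t in Ioo 0 (2 * (b₃ + b₂)), h (t + y * I)) +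
      ∫⁻ y in Ioo a₁ (a₁ + a₃), ∫⁻ t in Ioo b₃ (b₃ + 2 * b₂), h (t + y * I)

def Z_JEN : Prop := ∀ (r x₀ : ℝ) (z₁ : ℂ) (f f' : Fl) (ξ : ℂ → ℝ), FL r x₀ z₁ f →
  FL r x₀ z₁ f' → DM f f' ξ → LW f f' → JI f.a₁ f.a₃ f.b₃ f.b₂ f'.a₁ f'.a₃ f'.b₃ f'.b₂

/-- In the case of equality the two metrics are proportional. -/
def Z_EQ1 : Prop := ∀ (r x₀ : ℝ) (z₁ : ℂ) (f f' : Fl) (ξ : ℂ → ℝ), FL r x₀ z₁ f →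
  FL r x₀ z₁ f' → DM f f' ξ → LW f f' → f.a₃ * f'.a₁ = f'.a₃ * f.a₁ →
  JI f.a₁ f.a₃ f.b₃ f.b₂ f'.a₁ f'.a₃ f'.b₃ f'.b₂ →
  JI f'.a₁ f'.a₃ f'.b₃ f'.b₂ f.a₁ f.a₃ f.b₃ f.b₂ →
  ∃ m : ℝ, 0 < m ∧ (∀ ζ ∈ DD2 f'.a₁ f'.a₃ f'.b₃ f'.b₂, den f f' ζ = m) ∧
    m * (f'.b₃ + f'.b₂) = f.b₃ + f.b₂

/-- In the case of equality the developed function is affine. -/
def Z_EQ3 : Prop := ∀ (f f' : Fl) (ξ : ℂ → ℝ) (m : ℝ), Sh f'.a₁ f'.a₃ f'.b₃ f'.b₂ →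
  ContinuousOn ξ (DD2 f'.a₁ f'.a₃ f'.b₃ f'.b₂) → DM f f' ξ → EN f f' ξ id → 0 < m →
  (∀ ζ ∈ DD2 f'.a₁ f'.a₃ f'.b₃ f'.b₂, den f f' ζ = m) → m * (f'.b₃ + f'.b₂) = f.b₃ + f.b₂ →
  ∃ c : ℝ, ∀ s ∈ Ioo 0 (2 * (f'.b₃ + f'.b₂)), ∀ y ∈ Ioo 0 f'.a₁, ξ (s + y * I) = m * s + c

/-- In the case of equality the arcs coincide. -/
def Z_EQ2 : Prop := ∀ (r x₀ : ℝ) (z₁ : ℂ) (f f' : Fl) (ξ G : ℂ → ℝ) (m : ℝ), FL r x₀ z₁ f →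
  FL r x₀ z₁ f' → DV r f f' ξ G → DM f f' ξ → EN f f' ξ id → 0 < m →
  (∀ ζ ∈ DD2 f'.a₁ f'.a₃ f'.b₃ f'.b₂, den f f' ζ = m) → m * (f'.b₃ + f'.b₂) = f.b₃ + f.b₂ →
  KK f'.κ ∩ ann r ⊆ KK f.κ

/-! ### The result -/

def Z_UNIQ : Prop := ∀ (r B x₀ : ℝ) (z₁ a b a' b' : ℂ) (c c' : ℝ) (κ κ' : ℝ → ℂ)
  (v g v' g' : ℂ → ℝ), ZC r B x₀ z₁ a b c κ v g → ZC r B x₀ z₁ a' b' c' κ' v' g' →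
  a' = a ∧ b' = b ∧ c' = c ∧ KK κ' = KK κ ∧ EqOn v' v (ann r)

def Z_MAIN : Prop := ∀ (r B x₀ : ℝ) (z₁ : ℂ), 0 < r → r < x₀ → x₀ < 1 → z₁ ∈ ann r → 0 < B →
  z₁.im ≤ 0 → z₁ ≠ x₀ → ∃ a b c κ v g, ZC r B x₀ z₁ a b c κ v g ∧
    Msup r 0 B x₀ z₁ = v x₀ ∧
    ∀ u : ℂ → EReal, (Adm r 0 B z₁ u ∧ u x₀ = Msup r 0 B x₀ z₁) ↔ NH r κ ∧
      ((∀ z ∈ ann r, u z = v z) ∨ (z₁.im = 0 ∧ ∀ z ∈ ann r, u z = v (conj z)))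

end Pool.Agent.P.MP_3bd355_an
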