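import Pool.Agent.P.MP_3bd355_an.Z.Defs

/-! The case `A = 0`: small tools. -/

open Set Filter Metric Complex InnerProductSpace MeasureTheory
open scoped Topology ComplexConjugate Real

namespace Pool.Agent.P.MP_3bd355_an

/-! ### The square root `rt` -/

theorem rt_sq (w : ℂ) : rt w ^ 2 = w := by
  have h1 : exp (π / 4 * I) ^ 2 = I := by
    rw [← exp_nat_mul, show ((2 : ℕ) : ℂ) * (π / 4 * I) = π / 2 * I by push_cast; ring,
      exp_pi_div_two_mul_I]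
  have h2 : ((-I * w) ^ (1 / 2 : ℂ)) ^ 2 = -I * w := by
    rw [one_div]; exact cpow_ofNat_inv_pow _ 2
  rw [rt, mul_pow, h1, h2, ← mul_assoc, mul_neg, I_mul_I, neg_neg, one_mul]

theorem norm_rt (w : ℂ) : ‖rt w‖ = √‖w‖ := by
  conv_rhs => rw [← rt_sq w, norm_pow, Real.sqrt_sq (norm_nonneg _)]

theorem rt_ne {w : ℂ} (h : w ≠ 0) : rt w ≠ 0 := fun e => h (by rw [← rt_sq w, e]; simp)

theorem rt_zero : rt 0 = 0 := by rw [← norm_eq_zero, norm_rt]; simp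

theorem rt_analytic {w : ℂ} (h : -I * w ∈ slitPlane) : AnalyticAt ℂ rt w :=
  analyticAt_const.mul ((analyticAt_const.mul analyticAt_id).cpow analyticAt_const h)

theorem slit_of_im {w : ℂ} (h : 0 ≤ w.im) (h0 : w ≠ 0) : -I * w ∈ slitPlane := by
  rw [mem_slitPlane_iff]
  rcases h.lt_or_eq with h | h
  · left; simpa using h
  · right
    have : w.re ≠ 0 := fun e => h0 (Complex.ext e h.symm)
    simpa using this

theorem rt_analytic' {w : ℂ} (h : 0 ≤ w.im) (h0 : w ≠ 0) : AnalyticAt ℂ rt w :=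
  rt_analytic (slit_of_im h h0)

theorem rt_cont0 : ContinuousAt rt 0 := by
  rw [ContinuousAt, rt_zero, tendsto_zero_iff_norm_tendsto_zero]
  simp only [norm_rt]
  exact (Real.continuous_sqrt.comp continuous_norm).tendsto' (0 : ℂ) 0 (by simp)

theorem rt_cont {w : ℂ} (h : 0 ≤ w.im) : ContinuousAt rt w := by
  rcases eq_or_ne w 0 with rfl | h0
  · exact rt_cont0
  · exact (rt_analytic' h h0).continuousAt

theorem rt_sum {w : ℂ} (h : -I * w ∈ slitPlane) : 0 < (rt w).re + (rt w).im := by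
  have h0 : -I * w ≠ 0 := slitPlane_ne_zero h
  have e : exp (π / 4 * I) = ((√2 / 2 : ℝ) : ℂ) + ((√2 / 2 : ℝ) : ℂ) * I := by
    rw [show (π / 4 * I : ℂ) = ((π / 4 : ℝ) : ℂ) * I by push_cast; ring, exp_mul_I, ← ofReal_cos,
      ← ofReal_sin, Real.cos_pi_div_four, Real.sin_pi_div_four]
  have hp : 0 < ((-I * w) ^ (1 / 2 : ℂ)).re := by
    rw [cpow_def_of_ne_zero h0, exp_re]
    refine mul_pos (Real.exp_pos _) (Real.cos_pos_of_mem_Ioo ?_)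
    have h1 := neg_pi_lt_arg (-I * w)
    have h2 := lt_of_le_of_ne (arg_le_pi (-I * w)) (slitPlane_arg_ne_pi h)
    have e2 : (log (-I * w) * (1 / 2)).im = arg (-I * w) / 2 := by
      rw [show (1 / 2 : ℂ) = ((1 / 2 : ℝ) : ℂ) by push_cast; ring, im_mul_ofReal, log_im]; ring
    rw [e2]
    constructor <;> linarith
  have hs : 0 < √2 := by positivity
  rw [rt, e]
  simp only [mul_re, mul_im, add_re, add_im, ofReal_re, ofReal_im, I_re, I_im]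
  nlinarith

theorem rt_parts (w : ℂ) : (rt w).re ^ 2 - (rt w).im ^ 2 = w.re ∧
    2 * ((rt w).re * (rt w).im) = w.im := by
  constructor
  · conv_rhs => rw [← rt_sq w]
    rw [sq (rt w), mul_re]; ring
  · conv_rhs => rw [← rt_sq w]
    rw [sq (rt w), mul_im]; ring

theorem rt_quad {w : ℂ} (h : 0 < w.im) : 0 < (rt w).re ∧ 0 < (rt w).im := by
  have h1 := rt_sum (slit_of_im h.le (by rintro rfl; simp at h))
  have h2 := (rt_parts w).2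
  constructor <;> nlinarith

theorem rt_pos {w : ℂ} (h : w.im = 0) (h' : 0 < w.re) : (rt w).im = 0 ∧ 0 < (rt w).re := by
  have h1 := rt_sum (slit_of_im h.ge (by rintro rfl; simp at h'))
  obtain ⟨h2, h3⟩ := rt_parts w
  have h4 : (rt w).im = 0 := by
    rcases mul_eq_zero.1 (show (rt w).re * (rt w).im = 0 by linarith) with e | e
    · rw [e] at h2; nlinarith
    · exact e
  exact ⟨h4, by linarith⟩

theorem rt_neg {w : ℂ} (h : w.im = 0) (h' : w.re < 0) : (rt w).re = 0 ∧ 0 < (rt w).im := by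
  have h1 := rt_sum (slit_of_im h.ge (by rintro rfl; simp at h'))
  obtain ⟨h2, h3⟩ := rt_parts w
  have h4 : (rt w).re = 0 := by
    rcases mul_eq_zero.1 (show (rt w).re * (rt w).im = 0 by linarith) with e | e
    · exact e
    · rw [e] at h2; nlinarith
  exact ⟨h4, by linarith⟩

/-! ### The cut square root `S0` -/

theorem Sig_ne {x₀ : ℝ} {z : ℂ} (h : z ∉ Sig x₀) : z ≠ 0 ∧ z ≠ x₀ := by
  have h1 : -I * (z / (z - x₀)) ≠ 0 := slitPlane_ne_zero (not_not.1 h)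
  constructor <;> rintro rfl <;> simp at h1

theorem S0_sq {x₀ : ℝ} {z : ℂ} (h : z ≠ x₀) : S0 x₀ z ^ 2 = z * (z - x₀) := by
  have : z - x₀ ≠ 0 := sub_ne_zero.2 h
  rw [S0, mul_pow, rt_sq]; field_simp

theorem S0_ne {x₀ : ℝ} {z : ℂ} (h : z ∉ Sig x₀) : S0 x₀ z ≠ 0 := fun e => by
  have := S0_sq (Sig_ne h).2
  rw [e] at this
  exact mul_ne_zero (Sig_ne h).1 (sub_ne_zero.2 (Sig_ne h).2) (by rw [← this]; simp)

theorem S0_cont {x₀ : ℝ} {z : ℂ} (h : z ∉ Sig x₀) : ContinuousAt (S0 x₀) z := by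
  have h1 : ContinuousAt (fun y : ℂ => y / (y - x₀)) z :=
    continuousAt_id.div (by fun_prop) (sub_ne_zero.2 (Sig_ne h).2)
  exact (by fun_prop : ContinuousAt (fun y : ℂ => y - x₀) z).mul
    (ContinuousAt.comp (f := fun y : ℂ => y / (y - x₀)) (rt_analytic (not_not.1 h)).continuousAt h1)

theorem isClosed_Sig (x₀ : ℝ) : IsClosed (Sig x₀) := by
  rw [← isOpen_compl_iff, isOpen_iff_mem_nhds]
  intro z h
  have h1 : ContinuousAt (fun y : ℂ => -I * (y / (y - x₀))) z :=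
    continuousAt_const.mul (continuousAt_id.div (by fun_prop) (sub_ne_zero.2 (Sig_ne h).2))
  filter_upwards [h1.eventually (isOpen_slitPlane.mem_nhds (not_not.1 h))] with y hy
  exact not_not.2 hy

theorem Sig_im {x₀ : ℝ} (h0 : 0 < x₀) {z : ℂ} (h : z ∈ Sig x₀) : z = 0 ∨ z = x₀ ∨ 0 < z.im := by
  by_contra hc
  push Not at hc
  obtain ⟨h1, h2, h3⟩ := hc
  apply h
  apply slit_of_im _ (div_ne_zero h1 (sub_ne_zero.2 h2))
  rw [div_im, ← sub_div]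
  apply div_nonneg _ (normSq_nonneg _)
  simp only [sub_re, ofReal_re, sub_im, ofReal_im]
  nlinarith

/-! ### Simply connected sets -/

theorem NC_of_unb {U : Set ℂ} (h : ∀ p, p ∉ U → ∃ C : Set ℂ, IsPreconnected C ∧ p ∈ C ∧
    Disjoint C U ∧ ¬ Bornology.IsBounded C) : NC U := by
  intro C O hC hO e
  by_contra hne
  obtain ⟨p, hp⟩ := nonempty_iff_ne_empty.2 hne
  obtain ⟨D, hD, hpD, hDU, hb⟩ := h p (e ▸ hp).2
  refine hb (hC.isBounded.subset fun z hz => ?_)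
  by_contra hz'
  have := hD O Cᶜ hO hC.isClosed.isOpen_compl
    (fun y _ => (em (y ∈ C)).imp (fun hy => (e ▸ hy).1) id) ⟨p, hpD, (e ▸ hp).1⟩ ⟨z, hz, hz'⟩
  obtain ⟨y, hyD, hyO, hyC⟩ := this
  exact hyC (e ▸ ⟨hyO, disjoint_left.1 hDU hyD⟩)

theorem NC_convex {U : Set ℂ} (hc : Convex ℝ U) : NC U := by
  rcases U.eq_empty_or_nonempty with rfl | ⟨q, hq⟩
  · exact NC_of_unb fun p _ => ⟨univ, isPreconnected_univ, mem_univ _, by simp,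
      NormedSpace.unbounded_univ ℝ ℂ⟩
  refine NC_of_unb fun p hp => ⟨(fun t : ℝ => p + t • (p - q)) '' Ici 0,
    isPreconnected_Ici.image _ (by fun_prop), ⟨0, self_mem_Ici, by simp⟩, ?_, ?_⟩
  · rw [disjoint_left]
    rintro _ ⟨t, ht, rfl⟩ hU
    have h1 : (0 : ℝ) < 1 + t := by linarith [mem_Ici.1 ht]
    have := hc hq hU (a := t / (1 + t)) (b := 1 / (1 + t)) (div_nonneg ht h1.le) (by positivity)
      (by field_simp; ring)
    apply hp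
    convert this using 1
    have h2 : (1 + t : ℂ) ≠ 0 := by exact_mod_cast h1.ne'
    simp only [real_smul]
    push_cast
    field_simp
    ring
  · intro hb
    obtain ⟨M, hM⟩ := hb.exists_norm_le
    have hd : 0 < ‖p - q‖ := norm_pos_iff.2 (sub_ne_zero.2 fun e => hp (e ▸ hq))
    have h0 : 0 ≤ M := (norm_nonneg _).trans (hM _ ⟨0, self_mem_Ici, rfl⟩)
    have h1 := hM _ ⟨(M + ‖p‖ + 1) / ‖p - q‖, mem_Ici.2 (by positivity), rfl⟩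
    have h2 := norm_sub_le (p + ((M + ‖p‖ + 1) / ‖p - q‖) • (p - q)) p
    rw [add_sub_cancel_left, norm_smul, Real.norm_of_nonneg (by positivity),
      div_mul_cancel₀ _ hd.ne'] at h2
    linarith

/-! ### The model sets -/

theorem isOpen_Str (Λ : ℝ) : IsOpen (Str Λ) :=
  (isOpen_lt continuous_const continuous_re).inter (isOpen_lt continuous_re continuous_const)

theorem convex_Str (Λ : ℝ) : Convex ℝ (Str Λ) :=
  (convex_halfSpace_re_gt 0).inter (convex_halfSpace_re_lt Λ)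

theorem imp_set (fin : Prop) (P : ℂ → Prop) (R : Set ℂ → Prop) (h1 : R {u | P u}) (h2 : R univ) :
    R {u | fin → P u} := by
  by_cases h : fin
  · simpa [h] using h1
  · simpa [h] using h2

theorem isOpen_PP (Λ : ℝ) (fin : Prop) : IsOpen (PP Λ fin) := by
  refine (isOpen_lt continuous_const continuous_re).inter
    ((isOpen_lt continuous_re continuous_const).inter
      ((isOpen_lt continuous_const continuous_im).inter ?_))
  exact imp_set fin _ IsOpen (isOpen_lt continuous_im continuous_const) isOpen_univ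

theorem convex_PP (Λ : ℝ) (fin : Prop) : Convex ℝ (PP Λ fin) := by
  refine (convex_halfSpace_re_gt 0).inter ((convex_halfSpace_re_lt Λ).inter
    ((convex_halfSpace_im_gt 0).inter ?_))
  exact imp_set fin _ (Convex ℝ) (convex_halfSpace_im_lt π) convex_univ

theorem isClosed_PC (Λ : ℝ) (fin : Prop) : IsClosed (PC Λ fin) := by
  refine (isClosed_le continuous_const continuous_re).inter
    ((isClosed_le continuous_re continuous_const).inter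
      ((isClosed_le continuous_const continuous_im).inter ?_))
  exact imp_set fin _ IsClosed (isClosed_le continuous_im continuous_const) isClosed_univ

theorem convex_PC (Λ : ℝ) (fin : Prop) : Convex ℝ (PC Λ fin) := by
  refine (convex_halfSpace_re_ge 0).inter ((convex_halfSpace_re_le Λ).inter
    ((convex_halfSpace_im_ge 0).inter ?_))
  exact imp_set fin _ (Convex ℝ) (convex_halfSpace_im_le π) convex_univ

theorem PP_sub_PC (Λ : ℝ) (fin : Prop) : PP Λ fin ⊆ PC Λ fin := fun _ h =>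
  ⟨h.1.le, h.2.1.le, h.2.2.1.le, fun hf => (h.2.2.2 hf).le⟩

theorem PP_sub_Str (Λ : ℝ) (fin : Prop) : PP Λ fin ⊆ Str Λ := fun _ h => ⟨h.1, h.2.1⟩

theorem FS_sub_Str (Λ : ℝ) (fin : Prop) : FS Λ fin ⊆ Str Λ := fun _ h => ⟨h.1, h.2.1⟩

/-- The part of the closed set below a given height is compact. -/
theorem isCompact_PC (Λ : ℝ) (fin : Prop) (C : ℝ) : IsCompact (PC Λ fin ∩ {u | u.im ≤ C}) := by
  refine Metric.isCompact_of_isClosed_isBounded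
    ((isClosed_PC Λ fin).inter (isClosed_le continuous_im continuous_const)) ?_
  refine (isBounded_closedBall (x := (0 : ℂ)) (r := |Λ| + |C|)).subset fun u hu => ?_
  rw [mem_closedBall_zero_iff]
  refine (norm_le_abs_re_add_abs_im u).trans (add_le_add ?_ ?_)
  · rw [abs_of_nonneg hu.1.1]; exact hu.1.2.1.trans (le_abs_self _)
  · rw [abs_of_nonneg hu.1.2.2.1]; exact le_trans hu.2 (le_abs_self _)

theorem isOpen_RR (a δ : ℝ) : IsOpen (RR a δ) :=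
  (isOpen_lt continuous_const continuous_re).inter ((isOpen_lt continuous_re continuous_const).inter
    ((isOpen_lt continuous_const continuous_im).inter (isOpen_lt continuous_im continuous_const)))

theorem convex_RR (a δ : ℝ) : Convex ℝ (RR a δ) :=
  (convex_halfSpace_re_gt _).inter ((convex_halfSpace_re_lt _).inter
    ((convex_halfSpace_im_gt _).inter (convex_halfSpace_im_lt _)))

theorem isOpen_Lo (a₁ a₃ b₃ b₂ : ℝ) : IsOpen (Lo a₁ a₃ b₃ b₂) :=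
  (isOpen_lt continuous_const continuous_re).inter ((isOpen_lt continuous_re continuous_const).inter
    ((isOpen_lt continuous_const continuous_im).inter
      ((isOpen_lt continuous_im continuous_const).union
        ((isOpen_lt continuous_const continuous_re).inter
          (isOpen_lt continuous_im continuous_const)))))

theorem isOpen_Lc (a₁ a₃ b₃ b₂ : ℝ) : IsOpen (Lc a₁ a₃ b₃ b₂) :=
  (isOpen_lt continuous_const continuous_re).inter ((isOpen_lt continuous_re continuous_const).inter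
    ((isOpen_lt continuous_const continuous_im).inter
      ((isOpen_lt continuous_im continuous_const).union
        ((isOpen_lt continuous_const continuous_re).inter
          (isOpen_lt continuous_im continuous_const)))))

theorem isOpen_DD2 (a₁ a₃ b₃ b₂ : ℝ) : IsOpen (DD2 a₁ a₃ b₃ b₂) :=
  (isOpen_lt continuous_const continuous_im).inter
    (((isOpen_lt continuous_const continuous_re).inter
      ((isOpen_lt continuous_re continuous_const).inter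
        (isOpen_lt continuous_im continuous_const))).union
    ((isOpen_lt continuous_const continuous_re).inter
      ((isOpen_lt continuous_re continuous_const).inter
        (isOpen_lt continuous_im continuous_const))))

theorem Sh.nonneg {a₁ a₃ b₃ b₂ : ℝ} (h : Sh a₁ a₃ b₃ b₂) : 0 ≤ a₃ ∧ 0 ≤ b₃ :=
  h.2.2.elim (fun h => ⟨h.1.le, h.2.le⟩) fun h => ⟨h.1.ge, h.2.ge⟩

theorem KA.isClosed {r x₀ : ℝ} {z₁ : ℂ} {κ : ℝ → ℂ} {Q : ℂ → ℂ} (h : KA r x₀ z₁ κ Q) :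
    IsClosed (KK κ) := (isCompact_Icc.image_of_continuousOn h.cont).isClosed

theorem KA.isOpen {r x₀ : ℝ} {z₁ : ℂ} {κ : ℝ → ℂ} {Q : ℂ → ℂ} (h : KA r x₀ z₁ κ Q) :
    IsOpen (XX r κ) := (isOpen_ann r).sdiff h.isClosed

theorem KA.upper {r x₀ : ℝ} {z₁ : ℂ} {κ : ℝ → ℂ} {Q : ℂ → ℂ} (h : KA r x₀ z₁ κ Q) {z : ℂ}
    (hz : 0 < z.im) : z ∉ KK κ := fun ⟨t, ht, e⟩ => absurd (e ▸ h.low t ht) (not_le.2 hz)

theorem KA.inner {r x₀ : ℝ} {z₁ : ℂ} {κ : ℝ → ℂ} {Q : ℂ → ℂ} (h : KA r x₀ z₁ κ Q) {z : ℂ}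
    (hz : z ∈ KK κ) : z ∈ cann r := by
  obtain ⟨t, ht, rfl⟩ := hz
  rcases ht.2.lt_or_eq with h1 | rfl
  · exact ⟨(h.mem t ⟨ht.1, h1⟩).1, (h.mem t ⟨ht.1, h1⟩).2.le⟩
  · exact ⟨h.r1.le.trans h.stop.ge, h.stop.le⟩

theorem KA.notSig {r x₀ : ℝ} {z₁ : ℂ} {κ : ℝ → ℂ} {Q : ℂ → ℂ} (h : KA r x₀ z₁ κ Q) {z : ℂ}
    (hz : z ∈ KK κ) : z ∉ Sig x₀ := fun hs => by
  rcases Sig_im h.x0 hs with rfl | rfl | h1
  · have := (h.inner hz).1
    rw [norm_zero] at this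
    exact absurd h.r0 (not_lt.2 this)
  · exact h.avoid hz
  · exact h.upper h1 hz

/-! ### The Noshiro-Warschawski theorem -/

theorem noshiro {V : Set ℂ} {f f' : ℂ → ℂ} {ω : ℂ} (hV : Convex ℝ V)
    (hf : ∀ z ∈ V, HasDerivAt f (f' z) z) (hp : ∀ z ∈ V, 0 < (ω * f' z).re) : InjOn f V := by
  intro x hx y hy e
  by_contra hne
  have hd : y - x ≠ 0 := sub_ne_zero.2 (Ne.symm hne)
  have hm : ∀ t ∈ Icc (0 : ℝ) 1, x + t * (y - x) ∈ V := fun t ht => by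
    simpa [real_smul] using hV.add_smul_sub_mem hx hy ht
  have hder : ∀ t ∈ Icc (0 : ℝ) 1, HasDerivAt (fun s : ℝ => (ω / (y - x) * f (x + s * (y - x))).re)
      (ω * f' (x + t * (y - x))).re t := fun t ht => by
    have h1 : HasDerivAt (fun s : ℂ => ω / (y - x) * f (x + s * (y - x)))
        (ω * f' (x + t * (y - x))) t := by
      have := ((hf _ (hm t ht)).comp (t : ℂ)
        (((hasDerivAt_id (t : ℂ)).mul_const (y - x)).const_add x)).const_mul (ω / (y - x))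
      refine this.congr_deriv ?_
      field_simp
    exact h1.real_of_complex
  obtain ⟨t, ht, h0⟩ := exists_hasDerivAt_eq_zero one_pos
    (fun t ht => (hder t ht).continuousAt.continuousWithinAt) (by simp [e])
    fun t ht => hder t (Ioo_subset_Icc_self ht)
  exact (hp _ (hm t (Ioo_subset_Icc_self ht))).ne' h0

/-! ### The tent function -/

theorem continuous_tent (b : ℝ) : Continuous (tent b) := by
  unfold tent
  exact continuous_const.mul (Real.continuous_arccos.comp (by fun_prop))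

theorem tent_neg (b t : ℝ) : tent b (-t) = tent b t := by
  rw [tent, tent, mul_neg, neg_div, Real.cos_neg]

theorem tent_add {b : ℝ} (hb : 0 < b) (k : ℤ) (t : ℝ) : tent b (2 * b * k + t) = tent b t := by
  rw [tent, tent, show π * (2 * b * k + t) / b = π * t / b + k * (2 * π) by field_simp; ring,
    Real.cos_add_int_mul_two_pi]

theorem tent_refl {b : ℝ} (hb : 0 < b) (t : ℝ) : tent b (2 * b - t) = tent b t := by
  have := tent_add hb 1 (-t)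
  rwa [tent_neg, Int.cast_one, mul_one, ← sub_eq_add_neg] at this

theorem tent_self {b t : ℝ} (hb : 0 < b) (h0 : 0 ≤ t) (h1 : t ≤ b) : tent b t = t := by
  rw [tent, Real.arccos_cos (by positivity)
    (by rw [div_le_iff₀ hb]; exact mul_le_mul_of_nonneg_left h1 Real.pi_pos.le)]
  field_simp

theorem Rel.tent {b ξ x : ℝ} (h : Rel b ξ x) (hb : 0 < b) (h0 : 0 ≤ x) (h1 : x ≤ b) :
    tent b ξ = x := by
  obtain ⟨k, rfl | rfl⟩ := h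
  · rw [tent_add hb, tent_self hb h0 h1]
  · rw [sub_eq_add_neg, tent_add hb, tent_neg, tent_self hb h0 h1]

/-! ### Basic facts about frames -/

theorem conj_mem_Str {Λ : ℝ} {u : ℂ} : conj u ∈ Str Λ ↔ u ∈ Str Λ := by simp [Str]

theorem sq_sign {S : Set ℂ} {f g : ℂ → ℂ} (hS : IsPreconnected S) (hf : ContinuousOn f S)
    (hg : ContinuousOn g S) (h : ∀ z ∈ S, f z ^ 2 = g z ^ 2) (h0 : ∀ z ∈ S, g z ≠ 0) :
    ∃ c : ℂ, (c = 1 ∨ c = -1) ∧ ∀ z ∈ S, f z = c * g z := by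
  rcases hS.eq_or_eq_neg_of_sq_eq hf hg h (fun {z} hz => h0 z hz) with e | e
  · exact ⟨1, Or.inl rfl, fun z hz => by rw [one_mul]; exact e hz⟩
  · exact ⟨-1, Or.inr rfl, fun z hz => by rw [neg_one_mul]; exact e hz⟩

section
variable {r B x₀ : ℝ} {κ : ℝ → ℂ} {Q : ℂ → ℂ} {v : ℂ → ℝ} {fin : Prop} {Λ u₀ : ℝ} {Ψ T : ℂ → ℂ}

theorem UN.ana (h : UN r B x₀ κ Q v fin Λ u₀ Ψ T) {u : ℂ} (hu : u ∈ Str Λ) : AnalyticAt ℂ Ψ u :=
  h.d.analyticAt ((isOpen_Str Λ).mem_nhds hu)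

theorem UN.map_nhds (h : UN r B x₀ κ Q v fin Λ u₀ Ψ T) {u : ℂ} (hu : u ∈ Str Λ) :
    map Ψ (𝓝 u) = 𝓝 (Ψ u) := (h.ana hu).hasStrictDerivAt.map_nhds_eq (h.dne u hu)

/-- The top side is glued to its mirror image. -/
theorem UN.top (h : UN r B x₀ κ Q v fin Λ u₀ Ψ T) (hf : fin) {u : ℂ} (hu : u ∈ Str Λ)
    (hi : u.im = π) : Ψ (conj u) = Ψ u := by
  rw [← h.per hf _ (conj_mem_Str.2 hu)]
  congr 1
  apply Complex.ext <;> simp [hi]
  ring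

end

/-- The inverse of the primitive on the doubled polygon. -/
noncomputable def Dat.Ur (d : Dat) (ζ : ℂ) : ℂ :=
  if ζ.re ≤ d.b₃ + d.b₂ then d.U ζ else conj (d.U (2 * (d.b₃ + d.b₂ : ℝ) - conj ζ))

theorem Dat.Z_eq (d : Dat) (ζ : ℂ) : d.Z ζ = d.Ψ (d.Ur ζ) := by
  rw [Dat.Z, Dat.Ur]; split_ifs <;> rfl

theorem DD2_left {a₁ a₃ b₃ b₂ : ℝ} (h3 : 0 ≤ b₃) {ζ : ℂ} (h : ζ ∈ DD2 a₁ a₃ b₃ b₂)
    (h1 : ζ.re < b₃ + b₂) : ζ ∈ Lo a₁ a₃ b₃ b₂ := by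
  obtain ⟨h0, h2 | h2⟩ := h
  · exact ⟨h2.1, h1, h0, Or.inl h2.2.2⟩
  · exact ⟨h3.trans_lt h2.1, h1, h0, Or.inr ⟨h2.1, h2.2.2⟩⟩

theorem DD2_refl {a₁ a₃ b₃ b₂ : ℝ} {ζ : ℂ} (h : ζ ∈ DD2 a₁ a₃ b₃ b₂) :
    2 * (b₃ + b₂ : ℝ) - conj ζ ∈ DD2 a₁ a₃ b₃ b₂ := by
  have e1 : (2 * (b₃ + b₂ : ℝ) - conj ζ).re = 2 * (b₃ + b₂) - ζ.re := by simp
  have e2 : (2 * (b₃ + b₂ : ℝ) - conj ζ).im = ζ.im := by simp
  obtain ⟨h0, h2 | h2⟩ := h
  · exact ⟨e2 ▸ h0, Or.inl ⟨by rw [e1]; linarith [h2.2.1], by rw [e1]; linarith [h2.1],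
      e2 ▸ h2.2.2⟩⟩
  · exact ⟨e2 ▸ h0, Or.inr ⟨by rw [e1]; linarith [h2.2.1], by rw [e1]; linarith [h2.1],
      e2 ▸ h2.2.2⟩⟩

theorem DD2_right {a₁ a₃ b₃ b₂ : ℝ} (h3 : 0 ≤ b₃) {ζ : ℂ} (h : ζ ∈ DD2 a₁ a₃ b₃ b₂)
    (h1 : b₃ + b₂ < ζ.re) : 2 * (b₃ + b₂ : ℝ) - conj ζ ∈ Lo a₁ a₃ b₃ b₂ :=
  DD2_left h3 (DD2_refl h) (by
    rw [show (2 * (b₃ + b₂ : ℝ) - conj ζ).re = 2 * (b₃ + b₂) - ζ.re by simp]; linarith)

theorem DD2_im {a₁ a₃ b₃ b₂ : ℝ} (h3 : 0 ≤ a₃) {ζ : ℂ} (h : ζ ∈ DD2 a₁ a₃ b₃ b₂) :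
    ζ.im < a₁ + a₃ := h.2.elim (fun h => by linarith [h.2.2]) fun h => h.2.2

theorem refl_mid {b : ℝ} {ζ : ℂ} (h : ζ.re = b) : 2 * (b : ℂ) - conj ζ = ζ := by
  apply Complex.ext <;> simp [h]
  ring

namespace GF

variable {d : Dat} (h : GF d)
include h

theorem Λ0 : 0 < d.Λ := h.md.u0.trans h.md.u1

theorem B0 : 0 < d.B := h.zc.ch.B0

theorem b1 : 0 < d.b₃ + d.b₂ := add_pos_of_nonneg_of_pos h.lb.sh.nonneg.2 h.lb.sh.2.1

theorem u0_Str : (d.u₀ : ℂ) ∈ Str d.Λ := ⟨h.md.u0, h.md.u1⟩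

theorem u0_PC : (d.u₀ : ℂ) ∈ PC d.Λ d.fin :=
  ⟨h.md.u0.le, h.md.u1.le, le_rfl, fun _ => Real.pi_pos.le⟩

theorem v_w {z : ℂ} (hz : z ∈ XX d.r d.κ) : d.v z = d.B * (d.w z).re / d.Λ := by
  have hs := (h.uh.mem z hz).2
  rcases h.uh.rep z hz with e | e
  · conv_lhs => rw [← e, h.un.val _ hs]
  · conv_lhs => rw [← e, h.un.val _ (conj_mem_Str.2 hs), conj_re]

theorem rep {z : ℂ} (hz : z ∈ XX d.r d.κ) :
    ∃ u ∈ FS d.Λ d.fin, d.Ψ u = z ∧ (d.w z = u ∨ d.w z = conj u) := by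
  obtain ⟨u, hu, rfl⟩ := h.un.surj z hz
  refine ⟨u, hu, rfl, ?_⟩
  rcases le_total 0 u.im with hi | hi
  · exact Or.inl (h.uh.inv u ⟨hu.1.le, hu.2.1.le, hi, fun hf => (hu.2.2 hf).2⟩ ⟨hu.1, hu.2.1⟩).1
  · have := (h.uh.inv (conj u) ⟨hu.1.le, hu.2.1.le, by simpa using hi, fun hf => by
      have := (hu.2.2 hf).1
      rw [conj_im]; linarith⟩ ⟨hu.1, hu.2.1⟩).2
    rw [conj_conj] at this
    exact Or.inr this

omit h in
theorem x_eq (_ : GF d) {z : ℂ} (hz : z ∈ XX d.r d.κ) : d.x z = (d.Φ (d.w z)).re := if_pos hz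

theorem x_Psi {u : ℂ} (hu : u ∈ PC d.Λ d.fin) (hs : u ∈ Str d.Λ) :
    d.x (d.Ψ u) = (d.Φ u).re ∧ d.x (d.Ψ (conj u)) = (d.Φ u).re := by
  rw [h.x_eq (h.un.maps u hs), h.x_eq (h.un.maps _ (conj_mem_Str.2 hs)), (h.uh.inv u hu hs).1,
    (h.uh.inv u hu hs).2]
  exact ⟨rfl, rfl⟩

theorem w_x0 : d.w d.x₀ = d.u₀ := by
  rw [← h.un.base]; exact (h.uh.inv _ h.u0_PC h.u0_Str).1

theorem Lo_U {ζ : ℂ} (hζ : ζ ∈ Lo d.a₁ d.a₃ d.b₃ d.b₂) :
    d.U ζ ∈ PP d.Λ d.fin ∧ d.Φ (d.U ζ) = ζ := by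
  rw [← h.li.img] at hζ
  obtain ⟨u, hu, rfl⟩ := hζ
  rw [h.li.linv u (PP_sub_PC _ _ hu)]
  exact ⟨hu, rfl⟩

theorem side_U {S R : Set ℂ} (hS : S ⊆ PC d.Λ d.fin) (e : d.Φ '' S = R) {ζ : ℂ} (hζ : ζ ∈ R) :
    d.U ζ ∈ S ∧ d.U ζ ∈ PC d.Λ d.fin ∧ d.Φ (d.U ζ) = ζ := by
  rw [← e] at hζ
  obtain ⟨u, hu, rfl⟩ := hζ
  rw [h.li.linv u (hS hu)]
  exact ⟨hu, hS hu, rfl⟩

theorem bl_U {ζ : ℂ} (h1 : ζ.im = 0) (h2 : 0 < ζ.re) (h3 : ζ.re < d.b₃ + d.b₂) :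
    ((d.U ζ).im = 0 ∧ 0 < (d.U ζ).re ∧ (d.U ζ).re < d.u₀) ∧ d.U ζ ∈ PC d.Λ d.fin ∧
      d.Φ (d.U ζ) = ζ :=
  h.side_U (fun _ hu => ⟨hu.2.1.le, (hu.2.2.trans h.md.u1).le, hu.1.ge,
    fun _ => hu.1.trans_le Real.pi_pos.le⟩) h.lb.bl ⟨h1, h2, h3⟩

theorem br_U {ζ : ℂ} (h1 : ζ.re = d.b₃ + d.b₂) (h2 : 0 < ζ.im) (h3 : ζ.im < d.a₁ + d.a₃) :
    ((d.U ζ).im = 0 ∧ d.u₀ < (d.U ζ).re ∧ (d.U ζ).re < d.Λ) ∧ d.U ζ ∈ PC d.Λ d.fin ∧
      d.Φ (d.U ζ) = ζ :=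
  h.side_U (fun _ hu => ⟨(h.md.u0.trans hu.2.1).le, hu.2.2.le, hu.1.ge,
    fun _ => hu.1.trans_le Real.pi_pos.le⟩) h.lb.br ⟨h1, h2, h3⟩

theorem lf_U {ζ : ℂ} (h1 : ζ.re = 0) (h2 : 0 < ζ.im) (h3 : ζ.im < d.a₁) :
    ((d.U ζ).re = 0 ∧ 0 < (d.U ζ).im ∧ (d.fin → (d.U ζ).im < π)) ∧ d.U ζ ∈ PC d.Λ d.fin ∧
      d.Φ (d.U ζ) = ζ :=
  h.side_U (fun _ hu => ⟨hu.1.ge, hu.1.trans_le h.Λ0.le, hu.2.1.le,
    fun hf => (hu.2.2 hf).le⟩) h.lb.lf ⟨h1, h2, h3⟩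

theorem rg_U {ζ : ℂ} (h1 : ζ.im = d.a₁ + d.a₃) (h2 : d.b₃ < ζ.re) (h3 : ζ.re < d.b₃ + d.b₂) :
    ((d.U ζ).re = d.Λ ∧ 0 < (d.U ζ).im ∧ (d.fin → (d.U ζ).im < π)) ∧ d.U ζ ∈ PC d.Λ d.fin ∧
      d.Φ (d.U ζ) = ζ :=
  h.side_U (fun _ hu => ⟨h.Λ0.le.trans hu.1.ge, hu.1.le, hu.2.1.le,
    fun hf => (hu.2.2 hf).le⟩) h.lb.rg ⟨h1, h2, h3⟩

theorem tl_U (hf : d.fin) {ζ : ℂ} (h1 : ζ.im = d.a₁) (h2 : 0 < ζ.re) (h3 : ζ.re < d.b₃) :
    ((d.U ζ).im = π ∧ 0 < (d.U ζ).re ∧ (d.U ζ).re < d.cc) ∧ d.U ζ ∈ PC d.Λ d.fin ∧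
      d.Φ (d.U ζ) = ζ :=
  h.side_U (fun _ hu => ⟨hu.2.1.le, (hu.2.2.trans (h.md.cm hf).2.1).le,
    Real.pi_pos.le.trans hu.1.ge, fun _ => hu.1.le⟩) (h.lb.tl hf) ⟨h1, h2, h3⟩

theorem tr_U (hf : d.fin) {ζ : ℂ} (h1 : ζ.re = d.b₃) (h2 : d.a₁ < ζ.im) (h3 : ζ.im < d.a₁ + d.a₃) :
    ((d.U ζ).im = π ∧ d.cc < (d.U ζ).re ∧ (d.U ζ).re < d.Λ) ∧ d.U ζ ∈ PC d.Λ d.fin ∧
      d.Φ (d.U ζ) = ζ :=
  h.side_U (fun _ hu => ⟨((h.md.cm hf).1.trans hu.2.1).le, hu.2.2.le,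
    Real.pi_pos.le.trans hu.1.ge, fun _ => hu.1.le⟩) (h.lb.tr hf) ⟨h1, h2, h3⟩

theorem half_U {ζ : ℂ} (hζ : ζ ∈ DD2 d.a₁ d.a₃ d.b₃ d.b₂) (h1 : ζ.re ≤ d.b₃ + d.b₂) :
    d.U ζ ∈ PC d.Λ d.fin ∧ d.U ζ ∈ Str d.Λ ∧ d.Φ (d.U ζ) = ζ ∧ (d.fin → (d.U ζ).im < π) ∧
      (ζ.re < d.b₃ + d.b₂ → 0 < (d.U ζ).im) ∧
      (ζ.re = d.b₃ + d.b₂ → (d.U ζ).im = 0 ∧ d.u₀ < (d.U ζ).re) := by
  rcases h1.lt_or_eq with h1 | h1
  · obtain ⟨k1, k2⟩ := h.Lo_U (DD2_left h.lb.sh.nonneg.2 hζ h1)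
    exact ⟨PP_sub_PC _ _ k1, PP_sub_Str _ _ k1, k2, k1.2.2.2, fun _ => k1.2.2.1,
      fun e => absurd e h1.ne⟩
  · obtain ⟨k1, k2, k3⟩ := h.br_U h1 hζ.1 (DD2_im h.lb.sh.nonneg.1 hζ)
    exact ⟨k2, ⟨h.md.u0.trans k1.2.1, k1.2.2⟩, k3, fun _ => k1.1.trans_lt Real.pi_pos,
      fun e => absurd h1 e.ne, fun _ => ⟨k1.1, k1.2.1⟩⟩

theorem Ur_ge {ζ : ℂ} (hζ : ζ ∈ DD2 d.a₁ d.a₃ d.b₃ d.b₂) (h1 : d.b₃ + d.b₂ ≤ ζ.re) :
    d.Ur ζ = conj (d.U (2 * (d.b₃ + d.b₂ : ℝ) - conj ζ)) := by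
  rw [Dat.Ur]
  split_ifs with h2
  · rw [refl_mid (le_antisymm h2 h1),
      conj_eq_iff_im.2 ((h.half_U hζ h2).2.2.2.2.2 (le_antisymm h2 h1)).1]
  · rfl

omit h in
theorem refl_le {ζ : ℂ} (h1 : d.b₃ + d.b₂ ≤ ζ.re) :
    (2 * (d.b₃ + d.b₂ : ℝ) - conj ζ).re ≤ d.b₃ + d.b₂ := by
  rw [show (2 * (d.b₃ + d.b₂ : ℝ) - conj ζ).re = 2 * (d.b₃ + d.b₂) - ζ.re by simp]; linarith

theorem Ur_mem {ζ : ℂ} (hζ : ζ ∈ DD2 d.a₁ d.a₃ d.b₃ d.b₂) :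
    d.Ur ζ ∈ FS d.Λ d.fin ∧ (d.fin → |(d.Ur ζ).im| < π) ∧
      (ζ.re < d.b₃ + d.b₂ → 0 < (d.Ur ζ).im) ∧
      (ζ.re = d.b₃ + d.b₂ → (d.Ur ζ).im = 0 ∧ d.u₀ < (d.Ur ζ).re) ∧
      (d.b₃ + d.b₂ < ζ.re → (d.Ur ζ).im < 0) := by
  rcases le_or_gt ζ.re (d.b₃ + d.b₂) with h1 | h1
  · obtain ⟨k1, k2, -, k4, k5, k6⟩ := h.half_U hζ h1
    rw [show d.Ur ζ = d.U ζ from if_pos h1]
    exact ⟨⟨k2.1, k2.2, fun hf => ⟨by linarith [k1.2.2.1, Real.pi_pos], (k4 hf).le⟩⟩,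
      fun hf => by rw [abs_of_nonneg k1.2.2.1]; exact k4 hf, k5, k6,
      fun e => absurd h1 (not_le.2 e)⟩
  · obtain ⟨k1, -⟩ := h.Lo_U (DD2_right h.lb.sh.nonneg.2 hζ h1)
    rw [h.Ur_ge hζ h1.le]
    refine ⟨⟨k1.1, k1.2.1, fun hf => ?_⟩, fun hf => ?_, fun e => absurd h1 (not_lt.2 e.le),
      fun e => absurd e h1.ne', fun _ => ?_⟩
    · rw [conj_im]; constructor <;> linarith [k1.2.2.2 hf, k1.2.2.1, Real.pi_pos]
    · rw [conj_im, abs_neg, abs_of_pos k1.2.2.1]; exact k1.2.2.2 hf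
    · rw [conj_im]; linarith [k1.2.2.1]

theorem Ur_cont : ContinuousOn d.Ur (DD2 d.a₁ d.a₃ d.b₃ d.b₂) := by
  refine ContinuousOn.if (fun ζ hζ => ?_) ?_ ?_
  · have e : ζ.re = d.b₃ + d.b₂ := frontier_le_subset_eq continuous_re continuous_const hζ.2
    rw [← h.Ur_ge hζ.1 e.ge]
    exact (if_pos e.le).symm
  · rw [closure_le_eq continuous_re continuous_const]
    exact h.li.cont.mono fun ζ hζ => ⟨_, (h.half_U hζ.1 hζ.2).1, (h.half_U hζ.1 hζ.2).2.2.1⟩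
  · refine continuous_conj.comp_continuousOn (h.li.cont.comp (by fun_prop) fun ζ hζ => ?_)
    have h1 : d.b₃ + d.b₂ ≤ ζ.re := closure_lt_subset_le continuous_const continuous_re
      (by simpa only [not_le] using hζ.2)
    have := h.half_U (DD2_refl hζ.1) (refl_le h1)
    exact ⟨_, this.1, this.2.2.1⟩

/-- If `v → 0` then `x → 0`. -/
theorem x_zero {l : Filter ℂ} (hv : Tendsto d.v l (𝓝 0)) : Tendsto d.x l (𝓝 0) := by
  rw [Metric.tendsto_nhds]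
  intro ε hε
  obtain ⟨δ, hδ, hu⟩ := h.lb.unL ε hε
  filter_upwards [hv.eventually (gt_mem_nhds (div_pos (mul_pos h.B0 hδ) h.Λ0))] with z hz
  rw [Real.dist_eq, sub_zero]
  by_cases hX : z ∈ XX d.r d.κ
  · have hm := (h.uh.mem z hX).1
    rw [h.v_w hX, div_lt_div_iff_of_pos_right h.Λ0, mul_lt_mul_iff_right₀ h.B0] at hz
    rw [h.x_eq hX, abs_of_nonneg (h.lb.rng _ hm).1]
    exact hu _ hm hz
  · rw [show d.x z = 0 from if_neg hX, abs_zero]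
    exact hε

end GF

end Pool.Agent.P.MP_3bd355_an
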